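import Mathlib

/-!
The combinatorial heart: a Ramsey argument bounding the number of certified candidates.
-/

namespace Pool.Agent.LibHelper36.SJT

/-- two strings are comparable -/
def Cmp (a b : List Bool) : Prop := a <+: b ∨ b <+: a

theorem Cmp.refl (a : List Bool) : Cmp a a := Or.inl (List.prefix_refl a)

theorem Cmp.symm {a b : List Bool} (h : Cmp a b) : Cmp b a := Or.symm h

theorem ramsey {ι : Type*} [DecidableEq ι] (P Q : ι → ι → Prop)
    (hP : ∀ x y, P x y → P y x) (hQ : ∀ x y, Q x y → Q y x) :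
    ∀ (s a b : ℕ), a + b = s → ∀ S : Finset ι,
      (∀ x ∈ S, ∀ y ∈ S, x ≠ y → P x y ∨ Q x y) → 2 ^ s ≤ S.card →
      (∃ R ⊆ S, R.card = a ∧ ∀ x ∈ R, ∀ y ∈ R, x ≠ y → P x y) ∨
      (∃ R ⊆ S, R.card = b ∧ ∀ x ∈ R, ∀ y ∈ R, x ≠ y → Q x y) := by
  classical
  intro s
  induction s with
  | zero =>
    intro a b hab S _ _
    exact Or.inl ⟨∅, by simp, by simp; omega, by simp⟩
  | succ s ih =>
    intro a b hab S hS hcard
    rcases Nat.eq_zero_or_pos a with ha | ha
    · exact Or.inl ⟨∅, by simp, by simp [ha], by simp⟩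
    rcases Nat.eq_zero_or_pos b with hb | hb
    · exact Or.inr ⟨∅, by simp, by simp [hb], by simp⟩
    have hne : S.Nonempty := by
      rw [← Finset.card_pos]
      exact lt_of_lt_of_le (by positivity) hcard
    obtain ⟨v, hv⟩ := hne
    set N0 := (S.erase v).filter (fun x => P v x) with hN0
    set N1 := (S.erase v).filter (fun x => ¬ P v x) with hN1
    have hsum : N0.card + N1.card = S.card - 1 := by
      rw [hN0, hN1, Finset.card_filter_add_card_filter_not, Finset.card_erase_of_mem hv]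
    have hpow : 2 ^ (s + 1) = 2 ^ s + 2 ^ s := by ring
    have hbig : 2 ^ s ≤ N0.card ∨ 2 ^ s ≤ N1.card := by
      by_contra hcon
      push Not at hcon
      have : 0 < 2 ^ s := by positivity
      omega
    have hsub0 : N0 ⊆ S := (Finset.filter_subset _ _).trans (Finset.erase_subset _ _)
    have hsub1 : N1 ⊆ S := (Finset.filter_subset _ _).trans (Finset.erase_subset _ _)
    rcases hbig with hbig | hbig
    · rcases ih (a - 1) b (by omega) N0
        (fun x hx y hy hxy => hS x (hsub0 hx) y (hsub0 hy) hxy) hbig with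
        ⟨R, hR, hRc, hRP⟩ | ⟨R, hR, hRc, hRQ⟩
      · have hvR : v ∉ R := fun hvR => by
          have := hR hvR
          simp [hN0] at this
        refine Or.inl ⟨insert v R, ?_, ?_, ?_⟩
        · intro x hx
          rcases Finset.mem_insert.1 hx with rfl | hx
          · exact hv
          · exact hsub0 (hR hx)
        · rw [Finset.card_insert_of_notMem hvR]; omega
        · intro x hx y hy hxy
          rcases Finset.mem_insert.1 hx with rfl | hx' <;>
            rcases Finset.mem_insert.1 hy with rfl | hy'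
          · exact absurd rfl hxy
          · exact (Finset.mem_filter.1 (hR hy')).2
          · exact hP _ _ (Finset.mem_filter.1 (hR hx')).2
          · exact hRP x hx' y hy' hxy
      · exact Or.inr ⟨R, hR.trans hsub0, hRc, hRQ⟩
    · rcases ih a (b - 1) (by omega) N1
        (fun x hx y hy hxy => hS x (hsub1 hx) y (hsub1 hy) hxy) hbig with
        ⟨R, hR, hRc, hRP⟩ | ⟨R, hR, hRc, hRQ⟩
      · exact Or.inl ⟨R, hR.trans hsub1, hRc, hRP⟩
      · have hvR : v ∉ R := fun hvR => by
          have := hR hvR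
          simp [hN1] at this
        have key : ∀ x ∈ R, Q v x := by
          intro x hx
          have hx' := Finset.mem_filter.1 (hR hx)
          have hx2 := Finset.mem_erase.1 hx'.1
          rcases hS v hv x hx2.2 (Ne.symm hx2.1) with h | h
          · exact absurd h hx'.2
          · exact h
        refine Or.inr ⟨insert v R, ?_, ?_, ?_⟩
        · intro x hx
          rcases Finset.mem_insert.1 hx with rfl | hx
          · exact hv
          · exact hsub1 (hR hx)
        · rw [Finset.card_insert_of_notMem hvR]; omega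
        · intro x hx y hy hxy
          rcases Finset.mem_insert.1 hx with rfl | hx' <;>
            rcases Finset.mem_insert.1 hy with rfl | hy'
          · exact absurd rfl hxy
          · exact key y hy'
          · exact hQ _ _ (key x hx')
          · exact hRQ x hx' y hy' hxy

/-- `j`-th digit of `c` in base `b` -/
def dig (b c j : ℕ) : ℕ := c / b ^ j % b

theorem exists_digits (b : ℕ) (N : ℕ) (f : ℕ → ℕ) (hf : ∀ j < N, f j < b) :
    ∃ c < b ^ N, ∀ j < N, dig b c j = f j := by
  induction N with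
  | zero => exact ⟨0, by simp, by simp⟩
  | succ N ih =>
    obtain ⟨c, hc, hd⟩ := ih (fun j hj => hf j (by omega))
    have hb : 0 < b := lt_of_le_of_lt (Nat.zero_le _) (hf N (by omega))
    have hbN : 0 < b ^ N := by positivity
    refine ⟨c + f N * b ^ N, ?_, ?_⟩
    · have : f N * b ^ N ≤ (b - 1) * b ^ N :=
        Nat.mul_le_mul_right _ (by have := hf N (by omega); omega)
      calc c + f N * b ^ N < b ^ N + (b - 1) * b ^ N := by omega
        _ = b ^ (N + 1) := by
          rw [pow_succ]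
          obtain ⟨b', rfl⟩ : ∃ b', b = b' + 1 := ⟨b - 1, by omega⟩
          simp; ring
    · intro j hj
      rcases Nat.lt_succ_iff_lt_or_eq.1 hj with hj' | rfl
      · rw [← hd j hj']
        unfold dig
        obtain ⟨d, rfl⟩ : ∃ d, N = j + 1 + d := ⟨N - (j + 1), by omega⟩
        have e : c + f (j + 1 + d) * b ^ (j + 1 + d) =
            c + b ^ j * (b * (f (j + 1 + d) * b ^ d)) := by ring
        rw [e, Nat.add_mul_div_left _ _ (by positivity), Nat.add_mul_mod_self_left]
      · unfold dig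
        rw [Nat.add_mul_div_right _ _ hbN, Nat.div_eq_of_lt hc, zero_add,
          Nat.mod_eq_of_lt (hf j (by omega))]

/-- number of indices at level `l` -/
def NN (l : ℕ) : ℕ := 4 ^ (l + 2)

section Abstract

variable (α : ℕ → ℕ → List Bool) (legit : ℕ → Prop) (K : ℕ) (b : ℕ → ℕ)
  (V : ℕ → ℕ → ℕ → Prop) (C : ℕ → ℕ → ℕ → ℕ → Prop) (T : ℕ → ℕ → ℕ → Set ℕ)

/-- `τ` is certified at level `l` -/
def Cert (l τ : ℕ) : Prop :=
  ∃ j, j < NN l ∧ V l j τ ∧ ∃ c0, c0 + 1 < b l ∧ C l j c0 τ ∧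
    ∀ i < 2, ∀ c < b l ^ NN l, dig (b l) c j = c0 + 1 →
      ∃ j', j' < NN l ∧ ∃ c0' τ', dig (b l) c j' = c0' + 1 ∧ C l j' c0' τ' ∧ j' ∈ T i l c ∧
        Cmp (α i τ') (α i τ)

/-- `τ` is eligible at level `l` -/
def Elig (l τ : ℕ) : Prop := legit τ ∧ (τ + K = l ∨ Cert α b V C T (l + 1) τ)

variable {α legit K b V C T} {L0 : ℕ}

/-- few candidates are certified -/
theorem cert_card
    (hVfun : ∀ l j τ τ', V l j τ → V l j τ' → τ = τ')
    (hV1 : ∀ l j τ, V l j τ → legit τ)
    (hCfun : ∀ l j c τ τ', C l j c τ → C l j c τ' → τ = τ')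
    (hT : ∀ i l c, i < 2 → L0 ≤ l → c < b l ^ NN l → (T i l c).Finite ∧ (T i l c).ncard ≤ l)
    (hinc : ∀ τ τ', legit τ → legit τ' → τ ≠ τ' →
      ¬ Cmp (α 0 τ) (α 0 τ') ∨ ¬ Cmp (α 1 τ) (α 1 τ'))
    (l : ℕ) (hl : L0 ≤ l) (S : Finset ℕ) (hS : ∀ τ ∈ S, Cert α b V C T l τ) :
    S.card < 4 ^ (l + 1) := by
  classical
  by_contra hcon
  push Not at hcon
  have h4 : (4 : ℕ) ^ (l + 1) = 2 ^ (2 * (l + 1)) := by
    rw [pow_mul]; norm_num
  rw [h4] at hcon
  have hleg : ∀ τ ∈ S, legit τ := by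
    intro τ hτ
    obtain ⟨j, _, hV, _⟩ := hS τ hτ
    exact hV1 _ _ _ hV
  have hram := ramsey (fun τ τ' => ¬ Cmp (α 0 τ) (α 0 τ')) (fun τ τ' => ¬ Cmp (α 1 τ) (α 1 τ'))
    (fun x y h h' => h h'.symm) (fun x y h h' => h h'.symm) (2 * (l + 1)) (l + 1) (l + 1)
    (by ring) S (fun x hx y hy hxy => hinc x y (hleg x hx) (hleg y hy) hxy) hcon
  have main : ∃ i < 2, ∃ R ⊆ S, R.card = l + 1 ∧
      ∀ x ∈ R, ∀ y ∈ R, x ≠ y → ¬ Cmp (α i x) (α i y) := by
    rcases hram with ⟨R, h1, h2, h3⟩ | ⟨R, h1, h2, h3⟩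
    · exact ⟨0, by norm_num, R, h1, h2, h3⟩
    · exact ⟨1, by norm_num, R, h1, h2, h3⟩
  obtain ⟨i, hi, R, hRS, hRc, hRi⟩ := main
  choose! J hJ using fun τ (hτ : τ ∈ R) => hS τ (hRS hτ)
  choose! c0 hc0 using fun τ (hτ : τ ∈ R) => (hJ τ hτ).2.2
  have hJinj : ∀ τ ∈ R, ∀ τ' ∈ R, J τ = J τ' → τ = τ' := by
    intro τ hτ τ' hτ' h
    exact hVfun l (J τ) τ τ' (hJ τ hτ).2.1 (h ▸ (hJ τ' hτ').2.1)
  -- the box
  let f : ℕ → ℕ := fun j => if h : ∃ τ ∈ R, J τ = j then c0 h.choose + 1 else 0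
  have hfJ : ∀ τ ∈ R, f (J τ) = c0 τ + 1 := by
    intro τ hτ
    have hex : ∃ τ' ∈ R, J τ' = J τ := ⟨τ, hτ, rfl⟩
    have : hex.choose = τ := hJinj _ hex.choose_spec.1 _ hτ hex.choose_spec.2
    simp only [f]
    rw [dif_pos hex, this]
  have hbpos : 0 < b l := by
    have hRne : R.Nonempty := by rw [← Finset.card_pos]; omega
    obtain ⟨τ, hτ⟩ := hRne
    have := (hc0 τ hτ).1
    omega
  have hfb : ∀ j < NN l, f j < b l := by
    intro j _
    simp only [f]
    split_ifs with h
    · exact (hc0 _ h.choose_spec.1).1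
    · exact hbpos
  obtain ⟨c, hc, hdig⟩ := exists_digits (b l) (NN l) f hfb
  -- every index lies in the trace
  have hmem : ∀ τ ∈ R, J τ ∈ T i l c := by
    intro τ hτ
    have h1 := (hc0 τ hτ).2.2 i hi c hc (by rw [hdig _ (hJ τ hτ).1, hfJ τ hτ])
    obtain ⟨j', hj', c0', τ', hd', hC', hT', hcmp⟩ := h1
    rw [hdig _ hj'] at hd'
    have hex : ∃ τ'' ∈ R, J τ'' = j' := by
      by_contra hne
      simp only [f] at hd'
      rw [dif_neg hne] at hd'
      omega
    obtain ⟨τ'', hτ'', rfl⟩ := hex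
    rw [hfJ τ'' hτ''] at hd'
    have hc' : c0' = c0 τ'' := by omega
    subst hc'
    have : τ' = τ'' := hCfun _ _ _ _ _ hC' (hc0 τ'' hτ'').2.1
    subst this
    by_cases hne : τ' = τ
    · rwa [← hne]
    · exact absurd hcmp (hRi _ hτ'' _ hτ hne)
  obtain ⟨hfin, hcard⟩ := hT i l c hi hl hc
  have h1 : (R.image J).card = l + 1 := by
    rw [Finset.card_image_of_injOn (fun x hx y hy h => hJinj x hx y hy h), hRc]
  have h2 : ((R.image J : Finset ℕ) : Set ℕ) ⊆ T i l c := by
    intro x hx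
    rw [Finset.mem_coe, Finset.mem_image] at hx
    obtain ⟨τ, hτ, rfl⟩ := hx
    exact hmem τ hτ
  have h3 := Set.ncard_le_ncard h2 hfin
  rw [Set.ncard_coe_finset, h1] at h3
  omega

/-- the true candidate is certified -/
theorem cert_true
    (hVfun : ∀ l j τ τ', V l j τ → V l j τ' → τ = τ')
    (hV1 : ∀ l j τ, V l j τ → Elig α legit K b V C T l τ ∧ ∀ j' < j, ∃ v, V l j' v ∧ v ≠ τ)
    (hV2 : ∀ l j τ, Elig α legit K b V C T l τ → (∀ j' < j, ∃ v, V l j' v ∧ v ≠ τ) →
      ∃ τ', V l j τ')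
    (hCfun : ∀ l j c τ τ', C l j c τ → C l j c τ' → τ = τ')
    (hVC : ∀ l j τ, j < NN l → V l j τ → ∃ c0, c0 + 1 < b l ∧ C l j c0 τ)
    (hT : ∀ i l c, i < 2 → L0 ≤ l → c < b l ^ NN l → (T i l c).Finite ∧ (T i l c).ncard ≤ l)
    (hinc : ∀ τ τ', legit τ → legit τ' → τ ≠ τ' →
      ¬ Cmp (α 0 τ) (α 0 τ') ∨ ¬ Cmp (α 1 τ) (α 1 τ'))
    (hK : L0 ≤ K) (τ : ℕ) (hτ : legit τ)
    (hbox : ∀ i l c j c0, i < 2 → K ≤ l → c < b l ^ NN l → j < NN l →
      dig (b l) c j = c0 + 1 → C l j c0 τ →
      ∃ j', j' < NN l ∧ ∃ c0' τ', dig (b l) c j' = c0' + 1 ∧ C l j' c0' τ' ∧ j' ∈ T i l c ∧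
        Cmp (α i τ') (α i τ)) :
    Cert α b V C T K τ := by
  classical
  have hcc := cert_card (L0 := L0) hVfun (fun l j τ h => (hV1 l j τ h).1.1) hCfun hT hinc
  -- an eligible candidate gets an index
  have hidx : ∀ l, L0 ≤ l → ∀ τ, Elig α legit K b V C T l τ → ∃ j, j < NN l ∧ V l j τ := by
    intro l hl τ hE
    by_contra hno
    push Not at hno
    have hval : ∀ j ≤ NN l, ∀ j' < j, ∃ v, V l j' v ∧ v ≠ τ := by
      intro j
      induction j with
      | zero => intro _ j' hj'; omega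
      | succ j ih =>
        intro hj j' hj'
        have ih' := ih (by omega)
        rcases Nat.lt_succ_iff_lt_or_eq.1 hj' with h | rfl
        · exact ih' j' h
        · obtain ⟨v, hv⟩ := hV2 l j' τ hE ih'
          refine ⟨v, hv, fun h => ?_⟩
          subst h
          exact hno j' (by omega) hv
    choose! v hv using hval (NN l) le_rfl
    have hvinj : ∀ j < NN l, ∀ j' < NN l, v j = v j' → j = j' := by
      intro j hj j' hj' h
      by_contra hne
      rcases Nat.lt_or_gt_of_ne hne with hlt | hlt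
      · obtain ⟨w, hw, hne'⟩ := (hV1 l j' _ (hv j' hj').1).2 j hlt
        exact hne' ((hVfun _ _ _ _ hw (hv j hj).1).trans h)
      · obtain ⟨w, hw, hne'⟩ := (hV1 l j _ (hv j hj).1).2 j' hlt
        exact hne' ((hVfun _ _ _ _ hw (hv j' hj').1).trans h.symm)
    let S : Finset ℕ := insert τ ((Finset.range (NN l)).image v)
    have hScard : S.card = NN l + 1 := by
      rw [Finset.card_insert_of_notMem, Finset.card_image_of_injOn, Finset.card_range]
      · intro x hx y hy h
        exact hvinj x (by simpa using hx) y (by simpa using hy) h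
      · intro hmem
        obtain ⟨j, hj, hj'⟩ := Finset.mem_image.1 hmem
        exact (hv j (by simpa using hj)).2 hj'
    have hSE : ∀ x ∈ S, Elig α legit K b V C T l x := by
      intro x hx
      rcases Finset.mem_insert.1 hx with rfl | hx
      · exact hE
      · obtain ⟨j, hj, rfl⟩ := Finset.mem_image.1 hx
        exact (hV1 _ _ _ (hv j (by simpa using hj)).1).1
    have hlt := hcc (l + 1) (by omega) (S.filter (fun x => x + K ≠ l)) (by
      intro x hx
      obtain ⟨hx1, hx2⟩ := Finset.mem_filter.1 hx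
      rcases (hSE x hx1).2 with h | h
      · exact absurd h hx2
      · exact h)
    have hle : S.card ≤ (S.filter (fun x => x + K ≠ l)).card + 1 := by
      have h1 := Finset.card_filter_add_card_filter_not (s := S) (fun x => x + K ≠ l)
      have h2 : (S.filter (fun x => ¬ (x + K ≠ l))).card ≤ 1 := by
        rw [Finset.card_le_one]
        intro x hx y hy
        have hx' := (Finset.mem_filter.1 hx).2
        have hy' := (Finset.mem_filter.1 hy).2
        push Not at hx' hy'
        omega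
      omega
    have hNN : NN l = 4 ^ (l + 1 + 1) := rfl
    omega
  have hstep : ∀ l, K ≤ l → Elig α legit K b V C T l τ → Cert α b V C T l τ := by
    intro l hl hE
    obtain ⟨j, hj, hV⟩ := hidx l (hK.trans hl) τ hE
    obtain ⟨c0, hc0, hC⟩ := hVC l j τ hj hV
    exact ⟨j, hj, hV, c0, hc0, hC, fun i hi c hc hd => hbox i l c j c0 hi hl hc hj hd hC⟩
  have hdesc : ∀ d ≤ τ, Cert α b V C T (K + (τ - d)) τ := by
    intro d
    induction d with
    | zero =>
      intro _
      exact hstep _ (by omega) ⟨hτ, Or.inl (by omega)⟩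
    | succ d ih =>
      intro hd
      refine hstep _ (by omega) ⟨hτ, Or.inr ?_⟩
      have := ih (by omega)
      have e : K + (τ - (d + 1)) + 1 = K + (τ - d) := by omega
      rwa [e]
  simpa using hdesc τ le_rfl

end Abstract

end Pool.Agent.LibHelper36.SJT
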