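import Mathlib

/-!
# SJT reducibility: definitions

Everything is built on Mathlib's oracle computability `Nat.RecursiveIn`.
-/

namespace Pool.Agent.LibHelper36.SJT

open Classical in
/-- The characteristic function of `X`, as an oracle. -/
noncomputable def chi (X : Set ℕ) : ℕ →. ℕ := fun n => Part.some (if n ∈ X then 1 else 0)

/-- `f` is `X`-partial computable (Mathlib's oracle computability with oracle `X`). -/
def PCIn (X : Set ℕ) (f : ℕ →. ℕ) : Prop := Nat.RecursiveIn {chi X} f

/-- `J` assigns to every `X` a universal `X`-partial computable function `J X`: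
`J X` is `X`-partial computable and every `X`-partial computable function is obtained from
`J X` by substituting a computable function.  (This covers both `J^X(⟨e,n⟩) = φ_e^X(n)` and
`J^X(e) = φ_e^X(e)`.) -/
structure IsUniversal (J : Set ℕ → ℕ →. ℕ) : Prop where
  pc : ∀ X, PCIn X (J X)
  univ : ∀ X f, PCIn X f → ∃ r : ℕ → ℕ, Computable r ∧ ∀ n, f n = J X (r n)

/-- Order functions: computable, nondecreasing, unbounded (with values `≥ 1`, see the
claim file: with a value `0` no trace could capture anything). -/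
structure IsOrder (h : ℕ → ℕ) : Prop where
  comp : Computable h
  mono : Monotone h
  unb : ∀ k, ∃ n, k ≤ h n
  pos : 1 ≤ h 0

/-- `T` is a sequence of finite sets, uniformly c.e. relative to `B`. -/
def CETrace (B : Set ℕ) (T : ℕ → Set ℕ) : Prop :=
  (∀ n, (T n).Finite) ∧ ∃ f, PCIn B f ∧ ∀ n m, m ∈ T n ↔ (f (Nat.pair n m)).Dom

/-- the trace `T` is `h`-bounded -/
def BoundedBy (h : ℕ → ℕ) (T : ℕ → Set ℕ) : Prop := ∀ n, (T n).ncard ≤ h n

/-- the trace `T` captures the partial function `f` -/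
def Captures (T : ℕ → Set ℕ) (f : ℕ →. ℕ) : Prop := ∀ n, ∀ m ∈ f n, m ∈ T n

/-- `A` is jump-traceable: some computably bounded c.e. trace captures `J^A`. -/
def JumpTraceable (J : Set ℕ → ℕ →. ℕ) (A : Set ℕ) : Prop :=
  ∃ h, IsOrder h ∧ ∃ T, CETrace ∅ T ∧ BoundedBy h T ∧ Captures T (J A)

/-- `A ≤_SJT B`: for every order `h` some `h`-bounded `B`-c.e. trace captures `J^A`. -/
def SJTle (J : Set ℕ → ℕ →. ℕ) (A B : Set ℕ) : Prop :=
  ∀ h, IsOrder h → ∃ T, CETrace B T ∧ BoundedBy h T ∧ Captures T (J A)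

/-- `A₀ ⊕ A₁` -/
def join (A₀ A₁ : Set ℕ) : Set ℕ :=
  {x | (∃ n ∈ A₀, x = 2 * n) ∨ (∃ n ∈ A₁, x = 2 * n + 1)}

end Pool.Agent.LibHelper36.SJT
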