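import Mathlib
import Pool.Agent.Lib_helper45.Comp

/-!
Closure properties of recursively enumerable predicates.
-/

open Encodable Denumerable

namespace Pool.Agent.LibHelper36.SJT

variable {α β γ : Type*} [Primcodable α] [Primcodable β] [Primcodable γ]

/-- normal form of recursively enumerable predicates -/
theorem re_iff {p : α → Prop} :
    REPred p ↔ ∃ q : α → ℕ → Bool, Computable₂ q ∧ ∀ a, p a ↔ ∃ n, q a n = true := by
  constructor
  · intro hp
    obtain ⟨c, hc⟩ := Nat.Partrec.Code.exists_code.1 hp
    refine ⟨fun a n => (Nat.Partrec.Code.evaln n c (encode a)).isSome, ?_, ?_⟩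
    · have h1 : Computable fun z : α × ℕ => Nat.Partrec.Code.evaln z.2 c (encode z.1) :=
        Nat.Partrec.Code.primrec_evaln.to_comp.comp
          (((Computable.snd).pair (Computable.const c)).pair
            (Computable.encode.comp Computable.fst))
      exact Primrec.option_isSome.to_comp.comp h1
    · intro a
      have h2 : (Nat.Partrec.Code.eval c (encode a)).Dom ↔ p a := by
        rw [hc]
        simp [Part.assert]
      rw [← h2, Part.dom_iff_mem]
      constructor
      · rintro ⟨x, hx⟩
        obtain ⟨k, hk⟩ := Nat.Partrec.Code.evaln_complete.1 hx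
        exact ⟨k, by
          show (Nat.Partrec.Code.evaln k c (encode a)).isSome = true
          rw [Option.mem_def.1 hk]; rfl⟩
      · rintro ⟨k, hk⟩
        obtain ⟨x, hx⟩ := Option.isSome_iff_exists.1 hk
        exact ⟨x, Nat.Partrec.Code.evaln_complete.2 ⟨k, hx⟩⟩
  · rintro ⟨q, hq, h⟩
    have h1 : Partrec fun a => Nat.rfind (fun n => Part.some (q a n)) :=
      Partrec.rfind hq.partrec₂
    refine h1.dom_re.of_eq fun a => ?_
    rw [h, Part.dom_iff_mem]
    constructor
    · rintro ⟨n, hn⟩
      have := Nat.rfind_spec hn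
      exact ⟨n, by simpa using this⟩
    · intro ⟨n, hn⟩
      have hd : (Nat.rfind (fun n => Part.some (q a n))).Dom :=
        Nat.rfind_dom.2 ⟨n, by simpa using hn, fun _ => trivial⟩
      exact ⟨_, Part.get_mem hd⟩

theorem re_of_comp {p : α → Prop} {q : α → Bool} (hq : Computable q)
    (h : ∀ a, p a ↔ q a = true) : REPred p :=
  re_iff.2 ⟨fun a _ => q a, hq.comp Computable.fst, fun a => by simp [h]⟩

theorem re_comp {p : β → Prop} (hp : REPred p) {f : α → β} (hf : Computable f) :
    REPred fun a => p (f a) := by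
  obtain ⟨q, hq, h⟩ := re_iff.1 hp
  exact re_iff.2 ⟨fun a n => q (f a) n,
    hq.comp (hf.comp Computable.fst) Computable.snd, fun a => h _⟩

theorem re_ex_nat {p : α × ℕ → Prop} (hp : REPred p) : REPred fun a => ∃ n, p (a, n) := by
  obtain ⟨q, hq, h⟩ := re_iff.1 hp
  refine re_iff.2 ⟨fun a n => q (a, n.unpair.1) n.unpair.2, ?_, ?_⟩
  · exact hq.comp (Computable.pair Computable.fst
      (Computable.fst.comp (Computable.unpair.comp Computable.snd)))
      (Computable.snd.comp (Computable.unpair.comp Computable.snd))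
  · intro a
    constructor
    · rintro ⟨n, hn⟩
      obtain ⟨m, hm⟩ := (h _).1 hn
      exact ⟨Nat.pair n m, by simpa using hm⟩
    · rintro ⟨n, hn⟩
      exact ⟨n.unpair.1, (h _).2 ⟨n.unpair.2, hn⟩⟩

theorem re_ex {p : α × β → Prop} (hp : REPred p) : REPred fun a => ∃ b, p (a, b) := by
  obtain ⟨q, hq, h⟩ := re_iff.1 hp
  refine re_iff.2 ⟨fun a n => (Option.casesOn (decode (α := β) n.unpair.1) false
      (fun b => q (a, b) n.unpair.2) : Bool), ?_, ?_⟩
  · refine Computable.option_casesOn (o := fun z : α × ℕ => decode (α := β) z.2.unpair.1)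
      (f := fun _ => false) (g := fun z b => q (z.1, b) z.2.unpair.2) ?_ ?_ ?_
    · exact Computable.decode.comp (Computable.fst.comp (Computable.unpair.comp Computable.snd))
    · exact Computable.const _
    · exact hq.comp (Computable.pair (Computable.fst.comp Computable.fst) Computable.snd)
        (Computable.snd.comp (Computable.unpair.comp (Computable.snd.comp Computable.fst)))
  · intro a
    constructor
    · rintro ⟨b, hb⟩
      obtain ⟨m, hm⟩ := (h _).1 hb
      exact ⟨Nat.pair (encode b) m, by simpa using hm⟩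
    · rintro ⟨n, hn⟩
      dsimp only at hn
      cases hd : decode (α := β) n.unpair.1 with
      | none => rw [hd] at hn; simp at hn
      | some b =>
        rw [hd] at hn
        exact ⟨b, (h _).2 ⟨n.unpair.2, hn⟩⟩

theorem re_and {p q : α → Prop} (hp : REPred p) (hq : REPred q) :
    REPred fun a => p a ∧ q a := by
  obtain ⟨p', hp', h⟩ := re_iff.1 hp
  obtain ⟨q', hq', h'⟩ := re_iff.1 hq
  refine re_iff.2 ⟨fun a n => p' a n.unpair.1 && q' a n.unpair.2, ?_, ?_⟩
  · exact Primrec.and.to_comp.comp
      (hp'.comp Computable.fst (Computable.fst.comp (Computable.unpair.comp Computable.snd)))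
      (hq'.comp Computable.fst (Computable.snd.comp (Computable.unpair.comp Computable.snd)))
  · intro a
    rw [h, h']
    constructor
    · rintro ⟨⟨n, hn⟩, ⟨m, hm⟩⟩
      exact ⟨Nat.pair n m, by simp [hn, hm]⟩
    · rintro ⟨n, hn⟩
      rw [Bool.and_eq_true] at hn
      exact ⟨⟨_, hn.1⟩, ⟨_, hn.2⟩⟩

theorem re_or {p q : α → Prop} (hp : REPred p) (hq : REPred q) :
    REPred fun a => p a ∨ q a := by
  obtain ⟨p', hp', h⟩ := re_iff.1 hp
  obtain ⟨q', hq', h'⟩ := re_iff.1 hq
  refine re_iff.2 ⟨fun a n => p' a n || q' a n, ?_, ?_⟩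
  · exact Primrec.or.to_comp.comp hp' hq'
  · intro a
    rw [h, h']
    constructor
    · rintro (⟨n, hn⟩ | ⟨m, hm⟩)
      · exact ⟨n, by simp [hn]⟩
      · exact ⟨m, by simp [hm]⟩
    · rintro ⟨n, hn⟩
      rw [Bool.or_eq_true] at hn
      rcases hn with hn | hn
      · exact Or.inl ⟨n, hn⟩
      · exact Or.inr ⟨n, hn⟩

open Pool.Agent.Lib45 in
/-- bounded universal quantifier -/
theorem re_ball {p : α × ℕ → Prop} (hp : REPred p) {f : α → ℕ} (hf : Computable f) :
    REPred fun a => ∀ n < f a, p (a, n) := by
  obtain ⟨q, hq, h⟩ := re_iff.1 hp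
  -- stage N: all n < f a have a witness below N
  refine re_iff.2 ⟨fun a N => !(bex (fun n => !(bex (fun m => q (a, n) m) N)) (f a)), ?_, ?_⟩
  · have h1 : Computable fun z : (α × ℕ) × ℕ =>
        bex (fun m => q (z.1.1, z.2) m) z.1.2 := by
      refine computable_bex (f := fun z : (α × ℕ) × ℕ => z.1.2)
        (P := fun z m => q (z.1.1, z.2) m) (Computable.snd.comp Computable.fst) ?_
      exact hq.comp (Computable.pair (Computable.fst.comp (Computable.fst.comp Computable.fst))
        (Computable.snd.comp Computable.fst)) Computable.snd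
    have h2 : Computable fun z : α × ℕ =>
        bex (fun n => !(bex (fun m => q (z.1, n) m) z.2)) (f z.1) := by
      refine computable_bex (f := fun z : α × ℕ => f z.1)
        (P := fun z n => !(bex (fun m => q (z.1, n) m) z.2)) (hf.comp Computable.fst) ?_
      exact Primrec.not.to_comp.comp h1
    exact Primrec.not.to_comp.comp h2
  · intro a
    have key : ∀ N, (!(bex (fun n => !(bex (fun m => q (a, n) m) N)) (f a))) = true ↔
        ∀ n < f a, ∃ m < N, q (a, n) m = true := by
      intro N
      rw [Bool.not_eq_true', ← Bool.not_eq_true, bex_iff]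
      push Not
      refine forall₂_congr fun n _ => ?_
      rw [← bex_iff]
      cases bex (fun m => q (a, n) m) N <;> simp
    simp only [key]
    constructor
    · intro hall
      choose! w hw using fun n (hn : n < f a) => (h _).1 (hall n hn)
      refine ⟨(Finset.range (f a)).sup w + 1, fun n hn => ⟨w n, ?_, hw n hn⟩⟩
      have := Finset.le_sup (f := w) (Finset.mem_range.2 hn)
      omega
    · rintro ⟨N, hN⟩ n hn
      obtain ⟨m, -, hm⟩ := hN n hn
      exact (h _).2 ⟨m, hm⟩

end Pool.Agent.LibHelper36.SJT
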