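import Mathlib
import Pool.Agent.Lib_helper36.SJT.RE
import Pool.Agent.Lib_helper36.SJT.Defs

/-!
Relative enumerability through finite initial segments of the oracle.
-/

open Encodable Denumerable

namespace Pool.Agent.LibHelper36.SJT

variable {α β γ : Type*} [Primcodable α] [Primcodable β] [Primcodable γ]

open Classical in
/-- initial segment of `X` of length `k` -/
noncomputable def seg (X : Set ℕ) (k : ℕ) : List Bool :=
  (List.range k).map (fun i => decide (i ∈ X))

@[simp] theorem seg_length (X : Set ℕ) (k : ℕ) : (seg X k).length = k := by simp [seg]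

theorem seg_take (X : Set ℕ) (k k' : ℕ) : (seg X k).take k' = seg X (min k' k) := by
  simp [seg, ← List.map_take, List.take_range]

theorem seg_take_le (X : Set ℕ) {k k' : ℕ} (h : k' ≤ k) : (seg X k).take k' = seg X k' := by
  rw [seg_take, min_eq_left h]

open Classical in
theorem seg_getElem? (X : Set ℕ) (k i : ℕ) :
    (seg X k)[i]? = if i < k then some (decide (i ∈ X)) else none := by
  split_ifs with h
  · simp [seg, h]
  · simp [seg, h]

/-- `p` is recursively enumerable relative to `X` (through finite segments) -/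
def REIn (X : Set ℕ) (p : α → Prop) : Prop :=
  ∃ R : List Bool × α → Prop, REPred R ∧ ∀ a, p a ↔ ∃ k, R (seg X k, a)

variable {X : Set ℕ}

theorem REIn.of_eq {p q : α → Prop} (hp : REIn X p) (h : ∀ a, p a ↔ q a) : REIn X q := by
  obtain ⟨R, hR, h'⟩ := hp
  exact ⟨R, hR, fun a => by rw [← h, h']⟩

theorem REIn.of_re {p : α → Prop} (hp : REPred p) : REIn X p :=
  ⟨fun z => p z.2, re_comp hp Computable.snd, fun a => by simp⟩

theorem REIn.of_comp {p : α → Prop} {q : α → Bool} (hq : Computable q)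
    (h : ∀ a, p a ↔ q a = true) : REIn X p := REIn.of_re (re_of_comp hq h)

theorem REIn.comp {p : β → Prop} (hp : REIn X p) {f : α → β} (hf : Computable f) :
    REIn X fun a => p (f a) := by
  obtain ⟨R, hR, h'⟩ := hp
  exact ⟨fun z => R (z.1, f z.2), re_comp hR (Computable.pair Computable.fst
    (hf.comp Computable.snd)), fun a => h' _⟩

/-- monotone version of an approximating relation -/
theorem REIn.mono_rel {p : α → Prop} (hp : REIn X p) :
    ∃ R : List Bool × α → Prop, REPred R ∧ (∀ a k, R (seg X k, a) → p a) ∧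
      ∀ a, p a → ∃ k, ∀ k' ≥ k, R (seg X k', a) := by
  obtain ⟨R, hR, h'⟩ := hp
  refine ⟨fun z => ∃ t, R (z.1.take t, z.2), ?_, ?_, ?_⟩
  · have : REPred fun w : (List Bool × α) × ℕ => R (w.1.1.take w.2, w.1.2) := by
      refine re_comp hR (f := fun w : (List Bool × α) × ℕ => (w.1.1.take w.2, w.1.2)) ?_
      exact Computable.pair (Primrec.list_take.to_comp.comp Computable.snd
        (Computable.fst.comp Computable.fst)) (Computable.snd.comp Computable.fst)
    exact re_ex_nat this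
  · rintro a k ⟨t, ht⟩
    rw [seg_take] at ht
    exact (h' a).2 ⟨_, ht⟩
  · intro a ha
    obtain ⟨k, hk⟩ := (h' a).1 ha
    exact ⟨k, fun k' hk' => ⟨k, by rwa [seg_take_le X hk']⟩⟩

theorem REIn.and {p q : α → Prop} (hp : REIn X p) (hq : REIn X q) :
    REIn X fun a => p a ∧ q a := by
  obtain ⟨R, hR, h1, h2⟩ := hp.mono_rel
  obtain ⟨R', hR', h1', h2'⟩ := hq.mono_rel
  refine ⟨fun z => R z ∧ R' z, re_and hR hR', fun a => ⟨?_, ?_⟩⟩
  · rintro ⟨ha, ha'⟩
    obtain ⟨k, hk⟩ := h2 a ha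
    obtain ⟨k', hk'⟩ := h2' a ha'
    exact ⟨max k k', hk _ (le_max_left _ _), hk' _ (le_max_right _ _)⟩
  · rintro ⟨k, hk, hk'⟩
    exact ⟨h1 a k hk, h1' a k hk'⟩

theorem REIn.or {p q : α → Prop} (hp : REIn X p) (hq : REIn X q) :
    REIn X fun a => p a ∨ q a := by
  obtain ⟨R, hR, h1⟩ := hp
  obtain ⟨R', hR', h1'⟩ := hq
  refine ⟨fun z => R z ∨ R' z, re_or hR hR', fun a => ?_⟩
  show (p a ∨ q a) ↔ ∃ k, R (seg X k, a) ∨ R' (seg X k, a)
  rw [h1, h1']
  constructor
  · rintro (⟨k, hk⟩ | ⟨k, hk⟩)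
    · exact ⟨k, Or.inl hk⟩
    · exact ⟨k, Or.inr hk⟩
  · rintro ⟨k, hk | hk⟩
    · exact Or.inl ⟨k, hk⟩
    · exact Or.inr ⟨k, hk⟩

theorem REIn.ex {p : α × β → Prop} (hp : REIn X p) : REIn X fun a => ∃ b, p (a, b) := by
  obtain ⟨R, hR, h1⟩ := hp
  refine ⟨fun z => ∃ b, R (z.1, (z.2, b)), ?_, fun a => ?_⟩
  · refine re_ex (p := fun w : (List Bool × α) × β => R (w.1.1, (w.1.2, w.2))) ?_
    exact re_comp hR (Computable.pair (Computable.fst.comp Computable.fst)
      (Computable.pair (Computable.snd.comp Computable.fst) Computable.snd))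
  · constructor
    · rintro ⟨b, hb⟩
      obtain ⟨k, hk⟩ := (h1 _).1 hb
      exact ⟨k, b, hk⟩
    · rintro ⟨k, b, hk⟩
      exact ⟨b, (h1 _).2 ⟨k, hk⟩⟩

theorem REIn.ball {p : α × ℕ → Prop} (hp : REIn X p) {f : α → ℕ} (hf : Computable f) :
    REIn X fun a => ∀ n < f a, p (a, n) := by
  obtain ⟨R, hR, h1, h2⟩ := hp.mono_rel
  refine ⟨fun z => ∀ n < f z.2, R (z.1, (z.2, n)), ?_, fun a => ?_⟩
  · refine re_ball (p := fun w : (List Bool × α) × ℕ => R (w.1.1, (w.1.2, w.2))) ?_
      (hf.comp Computable.snd)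
    exact re_comp hR (Computable.pair (Computable.fst.comp Computable.fst)
      (Computable.pair (Computable.snd.comp Computable.fst) Computable.snd))
  · constructor
    · intro hall
      choose! w hw using fun n (hn : n < f a) => h2 (a, n) (hall n hn)
      refine ⟨(Finset.range (f a)).sup w, fun n hn => hw n hn _ ?_⟩
      exact Finset.le_sup (f := w) (Finset.mem_range.2 hn)
    · rintro ⟨k, hk⟩ n hn
      exact h1 _ k (hk n hn)

/-- being an initial segment of `X` is enumerable in `X` -/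
theorem REIn.isSeg : REIn X fun σ : List Bool => ∃ k, σ = seg X k := by
  refine ⟨fun z => z.2 = z.1, ?_, fun σ => Iff.rfl⟩
  refine re_of_comp (q := fun z : List Bool × List Bool => decide (z.2 = z.1)) ?_ (by simp)
  exact (Primrec.eq.comp Primrec.snd Primrec.fst).decide.to_comp

/-! ### Partial computable functions have enumerable graphs -/

/-- primitive recursion scheme -/
def prf (g h : ℕ →. ℕ) (a n : ℕ) : Part ℕ :=
  Nat.rec (motive := fun _ => Part ℕ) (g a)
    (fun y IH => IH.bind fun i => h (Nat.pair a (Nat.pair y i))) n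

theorem prf_zero (g h : ℕ →. ℕ) (a : ℕ) : prf g h a 0 = g a := rfl

theorem prf_succ (g h : ℕ →. ℕ) (a n : ℕ) :
    prf g h a (n + 1) = (prf g h a n).bind fun i => h (Nat.pair a (Nat.pair n i)) := rfl

theorem prf_mono {g h g' h' : ℕ →. ℕ} (hg : ∀ n m, m ∈ g n → m ∈ g' n)
    (hh : ∀ n m, m ∈ h n → m ∈ h' n) (a n m : ℕ) (hm : m ∈ prf g h a n) :
    m ∈ prf g' h' a n := by
  induction n generalizing m with
  | zero => exact hg _ _ hm
  | succ n ih =>
    rw [prf_succ, Part.mem_bind_iff] at hm ⊢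
    obtain ⟨i, hi, hb⟩ := hm
    exact ⟨i, ih i hi, hh _ _ hb⟩

theorem prf_cont (s : ℕ → List Bool) (G H : List Bool → ℕ →. ℕ) (g h : ℕ →. ℕ)
    (G1 : ∀ k k' n m, k ≤ k' → m ∈ G (s k) n → m ∈ G (s k') n)
    (H1 : ∀ k k' n m, k ≤ k' → m ∈ H (s k) n → m ∈ H (s k') n)
    (G2 : ∀ n m, m ∈ g n ↔ ∃ k, m ∈ G (s k) n) (H2 : ∀ n m, m ∈ h n ↔ ∃ k, m ∈ H (s k) n)
    (a n m : ℕ) : m ∈ prf g h a n ↔ ∃ k, m ∈ prf (G (s k)) (H (s k)) a n := by
  induction n generalizing m with
  | zero => exact G2 _ _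
  | succ n ih =>
    simp only [prf_succ, Part.mem_bind_iff]
    constructor
    · rintro ⟨i, hi, hb⟩
      obtain ⟨k, hk⟩ := (ih i).1 hi
      obtain ⟨k', hk'⟩ := (H2 _ _).1 hb
      exact ⟨max k k', i, prf_mono (G1 _ _ · · (le_max_left _ _)) (H1 _ _ · · (le_max_left _ _))
        _ _ _ hk, H1 _ _ _ _ (le_max_right _ _) hk'⟩
    · rintro ⟨k, i, hi, hb⟩
      exact ⟨i, (ih i).2 ⟨k, hi⟩, (H2 _ _).2 ⟨k, hb⟩⟩

/-- unbounded search scheme -/
def rff (f : ℕ →. ℕ) (a : ℕ) : Part ℕ :=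
  Nat.rfind (fun n => Part.map (fun m => decide (m = 0)) (f (Nat.pair a n)))

theorem mem_rff (f : ℕ →. ℕ) (a m : ℕ) :
    m ∈ rff f a ↔ 0 ∈ f (Nat.pair a m) ∧ ∀ j < m, ∃ y ∈ f (Nat.pair a j), y ≠ 0 := by
  refine Iff.trans (Nat.mem_rfind (p := fun n => Part.map (fun m => decide (m = 0))
    (f (Nat.pair a n)))) ?_
  constructor
  · rintro ⟨h1, h2⟩
    obtain ⟨x, hx, hx'⟩ := (Part.mem_map_iff _).1 h1
    simp only [decide_eq_true_eq] at hx'
    subst hx'
    refine ⟨hx, fun j hj => ?_⟩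
    obtain ⟨y, hy, hy'⟩ := (Part.mem_map_iff _).1 (h2 hj)
    exact ⟨y, hy, by simpa using hy'⟩
  · rintro ⟨h1, h2⟩
    refine ⟨(Part.mem_map_iff _).2 ⟨0, h1, by simp⟩, fun {j} hj => ?_⟩
    obtain ⟨y, hy, hy'⟩ := h2 j hj
    exact (Part.mem_map_iff _).2 ⟨y, hy, by simpa using hy'⟩

theorem rff_mono {g g' : ℕ →. ℕ} (hg : ∀ n m, m ∈ g n → m ∈ g' n) (a m : ℕ)
    (hm : m ∈ rff g a) : m ∈ rff g' a := by
  rw [mem_rff] at hm ⊢
  refine ⟨hg _ _ hm.1, fun j hj => ?_⟩
  obtain ⟨y, hy, hy'⟩ := hm.2 j hj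
  exact ⟨y, hg _ _ hy, hy'⟩

theorem rff_cont (s : ℕ → List Bool) (G : List Bool → ℕ →. ℕ) (g : ℕ →. ℕ)
    (G1 : ∀ k k' n m, k ≤ k' → m ∈ G (s k) n → m ∈ G (s k') n)
    (G2 : ∀ n m, m ∈ g n ↔ ∃ k, m ∈ G (s k) n)
    (a m : ℕ) : m ∈ rff g a ↔ ∃ k, m ∈ rff (G (s k)) a := by
  simp only [mem_rff]
  constructor
  · rintro ⟨h1, h2⟩
    obtain ⟨k, hk⟩ := (G2 _ _).1 h1
    choose! y hy hy' using h2
    choose! w hw using fun j (hj : j < m) => (G2 _ _).1 (hy j hj)
    refine ⟨max k ((Finset.range m).sup w), G1 _ _ _ _ (le_max_left _ _) hk,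
      fun j hj => ⟨y j, G1 _ _ _ _ ?_ (hw j hj), hy' j hj⟩⟩
    exact le_trans (Finset.le_sup (f := w) (Finset.mem_range.2 hj)) (le_max_right _ _)
  · rintro ⟨k, h1, h2⟩
    refine ⟨(G2 _ _).2 ⟨k, h1⟩, fun j hj => ?_⟩
    obtain ⟨y, hy, hy'⟩ := h2 j hj
    exact ⟨y, (G2 _ _).2 ⟨k, hy⟩, hy'⟩

/-- uniform approximation of an `X`-partial computable function -/
theorem PCIn.approx {f : ℕ →. ℕ} (hf : PCIn X f) :
    ∃ Ψ : List Bool → ℕ →. ℕ, Partrec₂ Ψ ∧
      (∀ k k' n m, k ≤ k' → m ∈ Ψ (seg X k) n → m ∈ Ψ (seg X k') n) ∧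
      ∀ n m, m ∈ f n ↔ ∃ k, m ∈ Ψ (seg X k) n := by
  classical
  induction hf with
  | zero =>
    refine ⟨fun _ _ => Part.some 0, (Computable.const 0).partrec, ?_, ?_⟩
    · intro k k' n m _ h; exact h
    · intro n m
      constructor
      · intro h; exact ⟨0, h⟩
      · rintro ⟨k, h⟩; exact h
  | succ =>
    refine ⟨fun _ n => Part.some (Nat.succ n), (Computable.succ.comp Computable.snd).partrec,
      ?_, ?_⟩
    · intro k k' n m _ h; exact h
    · intro n m
      constructor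
      · intro h; exact ⟨0, h⟩
      · rintro ⟨k, h⟩; exact h
  | left =>
    refine ⟨fun _ n => Part.some n.unpair.1,
      (Computable.fst.comp (Computable.unpair.comp Computable.snd)).partrec, ?_, ?_⟩
    · intro k k' n m _ h; exact h
    · intro n m
      constructor
      · intro h; exact ⟨0, h⟩
      · rintro ⟨k, h⟩; exact h
  | right =>
    refine ⟨fun _ n => Part.some n.unpair.2,
      (Computable.snd.comp (Computable.unpair.comp Computable.snd)).partrec, ?_, ?_⟩
    · intro k k' n m _ h; exact h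
    · intro n m
      constructor
      · intro h; exact ⟨0, h⟩
      · rintro ⟨k, h⟩; exact h
  | oracle g hg =>
    rw [Set.mem_singleton_iff] at hg
    subst hg
    refine ⟨fun σ n => ((σ[n]?).map (fun b => cond b 1 0) : Option ℕ), ?_, ?_, ?_⟩
    · refine Computable.ofOption ?_
      refine Computable.option_map (f := fun z : List Bool × ℕ => z.1[z.2]?)
        (g := fun _ b => cond b 1 0) ?_ ?_
      · exact Computable.list_getElem?.comp Computable.fst Computable.snd
      · exact Computable.cond Computable.snd (Computable.const 1) (Computable.const 0)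
    · intro k k' n m hk h
      simp only [seg_getElem?, Part.mem_coe, Option.mem_def, Option.map_eq_some_iff] at h ⊢
      obtain ⟨b, hb, hm⟩ := h
      refine ⟨b, ?_, hm⟩
      split_ifs at hb with hn
      rw [if_pos (by omega)]; exact hb
    · intro n m
      show m ∈ Part.some (if n ∈ X then 1 else 0) ↔
        ∃ k, m ∈ Part.ofOption (((seg X k)[n]?).map (fun b => cond b 1 0) : Option ℕ)
      simp only [seg_getElem?, Part.mem_ofOption, Option.mem_def, Option.map_eq_some_iff,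
        Part.mem_some_iff]
      constructor
      · rintro rfl
        refine ⟨n + 1, decide (n ∈ X), by simp, ?_⟩
        by_cases h : n ∈ X <;> simp [h]
      · rintro ⟨k, b, hb, rfl⟩
        split_ifs at hb with hn
        simp only [Option.some.injEq] at hb
        subst hb
        by_cases h : n ∈ X <;> simp [h]
  | @pair f h _ _ ihf ihh =>
    obtain ⟨F, hF, F1, F2⟩ := ihf
    obtain ⟨H, hH, H1, H2⟩ := ihh
    refine ⟨fun σ n => (F σ n).bind fun a => (H σ n).map fun b => Nat.pair a b, ?_, ?_, ?_⟩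
    · refine Partrec.bind hF (Partrec.map (hH.comp (Computable.fst.comp Computable.fst)
        (Computable.snd.comp Computable.fst)) ?_)
      exact (Primrec₂.natPair.to_comp.comp (Computable.snd.comp Computable.fst)
        Computable.snd)
    · intro k k' n m hk hm
      simp only [Part.mem_bind_iff, Part.mem_map_iff] at hm ⊢
      obtain ⟨a, ha, b, hb, rfl⟩ := hm
      exact ⟨a, F1 _ _ _ _ hk ha, b, H1 _ _ _ _ hk hb, rfl⟩
    · intro n m
      simp only [Part.mem_bind_iff, Part.mem_map_iff, Seq.seq, Part.map_eq_map]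
      constructor
      · rintro ⟨x, ⟨a, ha, rfl⟩, b, hb, rfl⟩
        obtain ⟨k, hk⟩ := (F2 _ _).1 ha
        obtain ⟨k', hk'⟩ := (H2 _ _).1 hb
        exact ⟨max k k', a, F1 _ _ _ _ (le_max_left _ _) hk, b,
          H1 _ _ _ _ (le_max_right _ _) hk', rfl⟩
      · rintro ⟨k, a, ha, b, hb, rfl⟩
        exact ⟨_, ⟨a, (F2 _ _).2 ⟨k, ha⟩, rfl⟩, b, (H2 _ _).2 ⟨k, hb⟩, rfl⟩
  | @comp f h _ _ ihf ihh =>
    obtain ⟨F, hF, F1, F2⟩ := ihf
    obtain ⟨H, hH, H1, H2⟩ := ihh
    refine ⟨fun σ n => (H σ n).bind fun a => F σ a, ?_, ?_, ?_⟩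
    · refine Partrec.bind hH ?_
      exact hF.comp (Computable.fst.comp Computable.fst) Computable.snd
    · intro k k' n m hk hm
      simp only [Part.mem_bind_iff] at hm ⊢
      obtain ⟨a, ha, hb⟩ := hm
      exact ⟨a, H1 _ _ _ _ hk ha, F1 _ _ _ _ hk hb⟩
    · intro n m
      show m ∈ (h n).bind (fun a => f a) ↔ ∃ k, m ∈ (H (seg X k) n).bind fun a => F (seg X k) a
      simp only [Part.mem_bind_iff]
      constructor
      · rintro ⟨a, ha, hb⟩
        obtain ⟨k, hk⟩ := (H2 _ _).1 ha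
        obtain ⟨k', hk'⟩ := (F2 _ _).1 hb
        exact ⟨max k k', a, H1 _ _ _ _ (le_max_left _ _) hk,
          F1 _ _ _ _ (le_max_right _ _) hk'⟩
      · rintro ⟨k, a, ha, hb⟩
        exact ⟨a, (H2 _ _).2 ⟨k, ha⟩, (F2 _ _).2 ⟨k, hb⟩⟩
  | @prec f h _ _ ihf ihh =>
    obtain ⟨F, hF, F1, F2⟩ := ihf
    obtain ⟨H, hH, H1, H2⟩ := ihh
    refine ⟨fun σ p => prf (F σ) (H σ) p.unpair.1 p.unpair.2, ?_, ?_, ?_⟩
    · refine Partrec.nat_rec (f := fun z : List Bool × ℕ => z.2.unpair.2)
        (g := fun z : List Bool × ℕ => F z.1 z.2.unpair.1)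
        (h := fun (z : List Bool × ℕ) (w : ℕ × ℕ) =>
          H z.1 (Nat.pair z.2.unpair.1 (Nat.pair w.1 w.2))) ?_ ?_ ?_
      · exact Computable.snd.comp (Computable.unpair.comp Computable.snd)
      · exact hF.comp Computable.fst (Computable.fst.comp (Computable.unpair.comp Computable.snd))
      · refine hH.comp (Computable.fst.comp Computable.fst) ?_
        exact Primrec₂.natPair.to_comp.comp
          (Computable.fst.comp (Computable.unpair.comp (Computable.snd.comp Computable.fst)))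
          (Primrec₂.natPair.to_comp.comp (Computable.fst.comp Computable.snd)
            (Computable.snd.comp Computable.snd))
    · intro k k' p m hk
      exact prf_mono (F1 k k' · · hk) (H1 k k' · · hk) _ _ _
    · intro p m
      exact prf_cont (seg X) F H f h F1 H1 F2 H2 _ _ _
  | @rfind f _ ihf =>
    obtain ⟨F, hF, F1, F2⟩ := ihf
    refine ⟨fun σ a => rff (F σ) a, ?_, ?_, ?_⟩
    · refine Partrec.rfind (p := fun (z : List Bool × ℕ) (n : ℕ) =>
        Part.map (fun m => decide (m = 0)) (F z.1 (Nat.pair z.2 n))) ?_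
      refine Partrec.map (f := fun w : (List Bool × ℕ) × ℕ => F w.1.1 (Nat.pair w.1.2 w.2))
        (g := fun _ m => decide (m = 0)) ?_ ?_
      · exact hF.comp (Computable.fst.comp Computable.fst)
          (Primrec₂.natPair.to_comp.comp (Computable.snd.comp Computable.fst) Computable.snd)
      · exact ((Primrec.eq.comp Primrec.snd (Primrec.const 0)).decide).to_comp
    · intro k k' a m hk
      exact rff_mono (F1 k k' · · hk) _ _
    · intro a m
      exact rff_cont (seg X) F f F1 F2 _ _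

end Pool.Agent.LibHelper36.SJT
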