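import Mathlib
import Pool.Agent.Lib_helper36.SJT.Oracle

/-!
Selection (uniformization) of relatively enumerable relations; a universal function.
-/

open Encodable Denumerable
open Pool.Agent.Lib45

namespace Pool.Agent.LibHelper36.SJT

variable {α β γ : Type*} [Primcodable α] [Primcodable β] [Primcodable γ]

theorem re_graph {f : α →. ℕ} (hf : Partrec f) : REPred fun z : α × ℕ => z.2 ∈ f z.1 := by
  have h1 : Partrec fun z : α × ℕ => (f z.1).bind fun y =>
      (bif decide (y = z.2) then Part.some () else Part.none) := by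
    refine Partrec.bind (hf.comp Computable.fst) ?_
    refine Partrec.cond (c := fun w : (α × ℕ) × ℕ => decide (w.2 = w.1.2)) ?_
      (Computable.const ()).partrec Partrec.none
    exact (Primrec.eq.comp Primrec.snd (Primrec.snd.comp Primrec.fst)).decide.to_comp
  refine h1.dom_re.of_eq fun z => ?_
  rw [Part.dom_iff_mem]
  simp only [Part.mem_bind_iff]
  constructor
  · rintro ⟨u, y, hy, hu⟩
    by_cases h : y = z.2
    · rwa [← h]
    · simp [h] at hu
  · intro h
    exact ⟨(), z.2, h, by simp⟩

variable {X : Set ℕ}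

theorem PCIn.graph {f : ℕ →. ℕ} (hf : PCIn X f) : REIn X fun z : ℕ × ℕ => z.2 ∈ f z.1 := by
  obtain ⟨Ψ, h1, -, h3⟩ := hf.approx
  refine ⟨fun z => z.2.2 ∈ Ψ z.1 z.2.1, ?_, fun z => h3 _ _⟩
  exact re_comp (re_graph h1) (f := fun z : List Bool × (ℕ × ℕ) => ((z.1, z.2.1), z.2.2))
    (Computable.pair (Computable.pair Computable.fst (Computable.fst.comp Computable.snd))
      (Computable.snd.comp Computable.snd))

theorem PCIn.dom {f : ℕ →. ℕ} (hf : PCIn X f) : REIn X fun n : ℕ => (f n).Dom := by
  refine (REIn.ex (p := fun z : ℕ × ℕ => z.2 ∈ f z.1) hf.graph).of_eq fun n => ?_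
  rw [Part.dom_iff_mem]

theorem totIn_chi : TotIn {chi X} (by classical exact fun n => if n ∈ X then 1 else 0) := by
  rw [totIn_iff]
  exact Nat.RecursiveIn.oracle _ rfl

theorem totIn_seg : TotIn {chi X} fun k => encode (seg X k) := by
  classical
  have hstep : TotIn {chi X} (fun w : ℕ =>
      encode ((decode (α := List Bool) w.unpair.2.unpair.2).getD [] ++
        [decide ((if w.unpair.2.unpair.1 ∈ X then 1 else 0) = 1)])) := by
    refine TotIn.comp₂ (F := fun u b : ℕ =>
      encode ((decode (α := List Bool) u.unpair.2.unpair.2).getD [] ++ [decide (b = 1)]))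
      ?_ (f := fun w => w) (TotIn.of_computable Computable.id)
      (g := fun w => if w.unpair.2.unpair.1 ∈ X then 1 else 0) ?_
    · refine Computable.encode.comp ?_
      refine Primrec.list_append.to_comp.comp ?_ ?_
      · refine Primrec.option_getD.to_comp.comp (Computable.decode.comp ?_) (Computable.const _)
        exact Computable.snd.comp (Computable.unpair.comp
          (Computable.snd.comp (Computable.unpair.comp Computable.fst)))
      · refine Primrec.list_cons.to_comp.comp ?_ (Computable.const _)
        exact (Primrec.eq.comp Primrec.snd (Primrec.const 1)).decide.to_comp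
    · exact (totIn_chi (X := X)).comp (g := fun w => w.unpair.2.unpair.1)
        (TotIn.of_computable (Computable.fst.comp (Computable.unpair.comp
          (Computable.snd.comp Computable.unpair))))
  have h0 : TotIn {chi X} (fun _ : ℕ => encode ([] : List Bool)) :=
    TotIn.of_computable (Computable.const _)
  have h1 := TotIn.prec h0 hstep
  have h2 := h1.comp (g := fun k => Nat.pair 0 k)
    (TotIn.of_computable (Primrec₂.natPair.to_comp.comp (Computable.const 0) Computable.id))
  have e : (fun k : ℕ => encode (seg X k)) = (fun k : ℕ => Nat.rec (motive := fun _ => ℕ)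
      (encode ([] : List Bool)) (fun y IH =>
        encode ((decode (α := List Bool) (Nat.pair (Nat.pair 0 k).unpair.1
          (Nat.pair y IH)).unpair.2.unpair.2).getD [] ++
        [decide ((if (Nat.pair (Nat.pair 0 k).unpair.1 (Nat.pair y IH)).unpair.2.unpair.1 ∈ X
          then 1 else 0) = 1)])) (Nat.pair 0 k).unpair.2) := by
    funext k
    simp only [Nat.unpair_pair]
    induction k with
    | zero => simp [seg]
    | succ k ih =>
      simp only [← ih, encodek, Option.getD_some]
      congr 1
      simp only [seg, List.range_succ, List.map_append, List.map_cons, List.map_nil]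
      congr 2
      by_cases h : k ∈ X <;> simp [h]
  rw [e]
  exact h2

/-- selection theorem -/
theorem REIn.select {P : ℕ × ℕ → Prop} (hP : REIn X P) :
    ∃ f, PCIn X f ∧ (∀ n m, m ∈ f n → P (n, m)) ∧ ∀ n m, P (n, m) → (f n).Dom := by
  obtain ⟨R, hR, h1⟩ := hP
  obtain ⟨q, hq, h2⟩ := re_iff.1 hR
  -- test: `w = ⟨n, ⟨k, ⟨m, t⟩⟩⟩`
  let F : ℕ → ℕ → ℕ := fun w s =>
    cond (q ((decode (α := List Bool) s).getD [], (w.unpair.1, w.unpair.2.unpair.2.unpair.1))
      w.unpair.2.unpair.2.unpair.2) 0 1
  have c22 : Computable fun z : ℕ × ℕ => z.1.unpair.2.unpair.2 :=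
    Computable.snd.comp (Computable.unpair.comp (Computable.snd.comp
      (Computable.unpair.comp Computable.fst)))
  have hF : Computable₂ F := by
    refine Computable.cond ?_ (Computable.const 0) (Computable.const 1)
    refine hq.comp (Computable.pair ?_ (Computable.pair ?_ ?_)) ?_
    · exact Primrec.option_getD.to_comp.comp (Computable.decode.comp Computable.snd)
        (Computable.const _)
    · exact Computable.fst.comp (Computable.unpair.comp Computable.fst)
    · exact Computable.fst.comp (Computable.unpair.comp c22)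
    · exact Computable.snd.comp (Computable.unpair.comp c22)
  have hT : TotIn {chi X} (fun w => F w (encode (seg X w.unpair.2.unpair.1))) := by
    refine TotIn.comp₂ hF (TotIn.of_computable Computable.id)
      (totIn_seg.comp (g := fun w => w.unpair.2.unpair.1) (TotIn.of_computable ?_))
    exact Computable.fst.comp (Computable.unpair.comp (Computable.snd.comp Computable.unpair))
  rw [totIn_iff] at hT
  have h3 := Nat.RecursiveIn.rfind hT
  have h4 : Nat.RecursiveIn {chi X} (fun z : ℕ => Part.some z.unpair.2.unpair.1) := by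
    have : TotIn {chi X} (fun z : ℕ => z.unpair.2.unpair.1) :=
      TotIn.of_computable (Computable.fst.comp (Computable.unpair.comp
        (Computable.snd.comp Computable.unpair)))
    rwa [totIn_iff] at this
  refine ⟨_, Nat.RecursiveIn.comp h4 h3, ?_, ?_⟩
  · intro n m hm
    replace hm : m ∈ (rff (fun w => Part.some (F w (encode (seg X w.unpair.2.unpair.1)))) n).bind
      (fun z => Part.some z.unpair.2.unpair.1) := hm
    rw [Part.mem_bind_iff] at hm
    obtain ⟨z, hz, hm⟩ := hm
    rw [Part.mem_some_iff] at hm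
    subst hm
    have := ((mem_rff _ _ _).1 hz).1
    simp only [Part.mem_some_iff, F, Nat.unpair_pair, encodek, Option.getD_some] at this
    refine (h1 _).2 ⟨z.unpair.1, (h2 _).2 ⟨z.unpair.2.unpair.2, ?_⟩⟩
    by_contra hne
    rw [Bool.not_eq_true] at hne
    rw [hne] at this
    simp at this
  · intro n m hP
    obtain ⟨k, hk⟩ := (h1 _).1 hP
    obtain ⟨t, ht⟩ := (h2 _).1 hk
    have hd : (rff (fun w => Part.some (F w (encode (seg X w.unpair.2.unpair.1)))) n).Dom := by
      refine Nat.rfind_dom.2 ⟨Nat.pair k (Nat.pair m t), ?_, fun _ => trivial⟩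
      refine (Part.mem_map_iff _).2 ⟨0, ?_, by simp⟩
      simp [F, ht]
    show ((rff (fun w => Part.some (F w (encode (seg X w.unpair.2.unpair.1)))) n).bind
      (fun z => Part.some z.unpair.2.unpair.1)).Dom
    exact ⟨hd, trivial⟩

/-- a relation with functional graph that is enumerable is partial computable -/
theorem REIn.pcIn {f : ℕ →. ℕ} (hf : REIn X fun z : ℕ × ℕ => z.2 ∈ f z.1) : PCIn X f := by
  obtain ⟨g, hg, h1, h2⟩ := hf.select
  have : g = f := by
    funext n
    refine Part.ext fun m => ⟨fun h => h1 n m h, fun h => ?_⟩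
    obtain ⟨m', hm'⟩ := Part.dom_iff_mem.1 (h2 n m h)
    rwa [Part.mem_unique h (h1 n m' hm')]
  rwa [← this]

/-- there is a universal `X`-partial computable function -/
theorem exists_univ (X : Set ℕ) : ∃ U : ℕ →. ℕ, PCIn X U ∧
    ∀ f, PCIn X f → ∃ e, ∀ n, f n = U (Nat.pair e n) := by
  have h0 : REIn X fun z : ℕ × ℕ => ∃ k, z.2 ∈
      Nat.Partrec.Code.eval (ofNat Nat.Partrec.Code z.1.unpair.1)
        (encode (seg X k, z.1.unpair.2)) := by
    refine ⟨fun w => w.2.2 ∈ Nat.Partrec.Code.eval (ofNat Nat.Partrec.Code w.2.1.unpair.1)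
        (encode (w.1, w.2.1.unpair.2)), ?_, fun z => Iff.rfl⟩
    have h1 : Partrec fun w : List Bool × ℕ =>
        Nat.Partrec.Code.eval (ofNat Nat.Partrec.Code w.2.unpair.1)
        (encode (w.1, w.2.unpair.2)) := by
      refine Nat.Partrec.Code.eval_part.comp ?_ ?_
      · exact (Computable.ofNat _).comp (Computable.fst.comp
          (Computable.unpair.comp Computable.snd))
      · exact Computable.encode.comp (Computable.pair Computable.fst
          (Computable.snd.comp (Computable.unpair.comp Computable.snd)))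
    exact re_comp (re_graph h1) (f := fun w : List Bool × (ℕ × ℕ) => ((w.1, w.2.1), w.2.2))
      (Computable.pair (Computable.pair Computable.fst (Computable.fst.comp Computable.snd))
        (Computable.snd.comp Computable.snd))
  obtain ⟨U, hU, h1, h2⟩ := h0.select
  refine ⟨U, hU, fun f hf => ?_⟩
  obtain ⟨Ψ, hΨ, -, h3⟩ := hf.approx
  obtain ⟨c, hc⟩ := Nat.Partrec.Code.exists_code.1 hΨ
  have key : ∀ σ n, Nat.Partrec.Code.eval c (encode (σ, n)) = Ψ σ n := by
    intro σ n
    rw [hc]
    simp only [encodek, Part.coe_some, Part.bind_some]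
    exact Part.map_id' (f := fun m : ℕ => encode m) (fun _ => rfl) _
  refine ⟨encode c, fun n => ?_⟩
  refine Part.ext fun m => ⟨fun h => ?_, fun h => ?_⟩
  · obtain ⟨k, hk⟩ := (h3 _ _).1 h
    have hd := h2 (Nat.pair (encode c) n) m ⟨k, by
      simp only [Nat.unpair_pair, ofNat_encode]
      rw [key]; exact hk⟩
    obtain ⟨m', hm'⟩ := Part.dom_iff_mem.1 hd
    obtain ⟨k', hk'⟩ := h1 _ _ hm'
    simp only [Nat.unpair_pair, ofNat_encode] at hk'
    rw [key] at hk'
    rwa [Part.mem_unique h ((h3 _ _).2 ⟨k', hk'⟩)]
  · obtain ⟨k', hk'⟩ := h1 _ _ h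
    simp only [Nat.unpair_pair, ofNat_encode] at hk'
    rw [key] at hk'
    exact (h3 _ _).2 ⟨k', hk'⟩

end Pool.Agent.LibHelper36.SJT
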