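import Mathlib
import Pool.Agent.Lib_helper36.SJT.Select

/-!
Order functions; traces of partial functions; candidates.
-/

open Encodable Denumerable
open Pool.Agent.Lib45

namespace Pool.Agent.LibHelper36.SJT

theorem exists_find {p : ℕ → ℕ → Bool} (hp : Computable₂ p)
    (h : ∀ a, ∃ n, p a n = true) :
    ∃ f : ℕ → ℕ, Computable f ∧ (∀ a, p a (f a) = true) ∧ ∀ a n, p a n = true → f a ≤ n := by
  refine ⟨fun a => Nat.find (h a), ?_, fun a => Nat.find_spec (h a),
    fun a n hn => Nat.find_min' (h a) hn⟩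
  refine Computable.find (P := fun a n => p a n = true) ?_ h
  refine ComputablePred.computable_iff.2 ⟨fun z : ℕ × ℕ => p z.1 z.2, hp, rfl⟩

/-- slow order functions -/
theorem exists_slow {F : ℕ → ℕ} (hF : Computable F) (hlt : ∀ l, l < F l) :
    ∃ h, IsOrder h ∧ ∀ l y, 1 ≤ l → y < F l → h y ≤ l := by
  have hc : Computable₂ fun y l : ℕ => decide (y < F (l + 1)) := by
    refine (Primrec.nat_lt.decide.to_comp).comp Computable.fst
      (hF.comp (Computable.succ.comp Computable.snd))
  obtain ⟨f, hf, hf1, hf2⟩ := exists_find hc fun y =>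
    ⟨y, by simpa using lt_trans (Nat.lt_succ_self y) (hlt (y + 1))⟩
  simp only [decide_eq_true_eq] at hf1 hf2
  refine ⟨fun y => f y + 1, ⟨?_, ?_, ?_, ?_⟩, ?_⟩
  · exact Computable.succ.comp hf
  · intro y y' hy
    refine Nat.succ_le_succ (hf2 _ _ ?_)
    have := hf1 y'
    omega
  · intro k
    refine ⟨(Finset.range k).sup (fun l => F (l + 1)), ?_⟩
    refine le_trans ?_ (Nat.le_succ _)
    by_contra hcon
    push Not at hcon
    have h1 := hf1 ((Finset.range k).sup (fun l => F (l + 1)))
    have h2 := Finset.le_sup (f := fun l => F (l + 1)) (Finset.mem_range.2 hcon)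
    exact absurd h1 (not_lt.2 h2)
  · exact Nat.le_add_left 1 _
  · intro l y hl hy
    obtain ⟨l, rfl⟩ : ∃ l', l = l' + 1 := ⟨l - 1, by omega⟩
    exact Nat.succ_le_succ (hf2 _ _ hy)

/-- inverse of an order function -/
theorem exists_inv {h : ℕ → ℕ} (hh : IsOrder h) :
    ∃ ν : ℕ → ℕ, Computable ν ∧ ∀ l n, h n ≤ l → n < ν l := by
  have hc : Computable₂ fun l n : ℕ => decide (l < h n) :=
    (Primrec.nat_lt.decide.to_comp).comp Computable.fst (hh.comp.comp Computable.snd)
  obtain ⟨f, hf, hf1, hf2⟩ := exists_find hc fun l => by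
    obtain ⟨n, hn⟩ := hh.unb (l + 1)
    exact ⟨n, by simpa using hn⟩
  simp only [decide_eq_true_eq] at hf1 hf2
  refine ⟨f, hf, ?_⟩
  intro l n hn
  by_contra hcon
  push Not at hcon
  exact absurd ((hf1 l).trans_le (hh.mono hcon)) (not_lt.2 hn)

/-- computable majorant of `r` on `[0, ν l)` -/
theorem exists_major {r ν : ℕ → ℕ} (hr : Computable r) (hν : Computable ν) :
    ∃ M : ℕ → ℕ, Computable M ∧ (∀ l, l < M l) ∧ ∀ l n, n < ν l → r n < M l := by
  refine ⟨fun l => Nat.rec (motive := fun _ => ℕ) (l + 1) (fun i IH => IH + (r i + 1)) (ν l),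
    ?_, ?_, ?_⟩
  · refine Computable.nat_rec (h := fun (_ : ℕ) (p : ℕ × ℕ) => p.2 + (r p.1 + 1)) hν
      Computable.succ ?_
    refine Primrec.nat_add.to_comp.comp (Computable.snd.comp Computable.snd) ?_
    exact Computable.succ.comp (hr.comp (Computable.fst.comp Computable.snd))
  · intro l
    show l < Nat.rec (motive := fun _ => ℕ) (l + 1) (fun i IH => IH + (r i + 1)) (ν l)
    generalize ν l = N
    induction N with
    | zero => exact Nat.lt_succ_self l
    | succ N ih => exact lt_of_lt_of_le ih (Nat.le_add_right _ _)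
  · intro l n hn
    show r n < Nat.rec (motive := fun _ => ℕ) (l + 1) (fun i IH => IH + (r i + 1)) (ν l)
    generalize ν l = N at hn
    induction N with
    | zero => omega
    | succ N ih =>
      rcases Nat.lt_succ_iff_lt_or_eq.1 hn with h | rfl
      · exact lt_of_lt_of_le (ih h) (Nat.le_add_right _ _)
      · show r n < _ + (r n + 1)
        omega

/-- membership in a c.e. trace, as an enumerable relation -/
theorem ceTrace_iff {B : Set ℕ} {T : ℕ → Set ℕ} :
    CETrace B T ↔ (∀ n, (T n).Finite) ∧ REIn B fun z : ℕ × ℕ => z.2 ∈ T z.1 := by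
  constructor
  · rintro ⟨hfin, f, hf, h⟩
    refine ⟨hfin, ?_⟩
    refine ((PCIn.dom hf).comp (f := fun z : ℕ × ℕ => Nat.pair z.1 z.2) ?_).of_eq fun z =>
      (h _ _).symm
    exact Primrec₂.natPair.to_comp
  · rintro ⟨hfin, h⟩
    refine ⟨hfin, ?_⟩
    obtain ⟨f, hf, h1, h2⟩ := REIn.select (X := B)
      (P := fun z : ℕ × ℕ => z.1.unpair.2 ∈ T z.1.unpair.1)
      (h.comp (f := fun z : ℕ × ℕ => (z.1.unpair.1, z.1.unpair.2))
        (Computable.pair (Computable.fst.comp (Computable.unpair.comp Computable.fst))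
          (Computable.snd.comp (Computable.unpair.comp Computable.fst))))
    refine ⟨f, hf, fun n m => ⟨fun hm => h2 (Nat.pair n m) 0 (by simpa using hm), fun hd => ?_⟩⟩
    obtain ⟨x, hx⟩ := Part.dom_iff_mem.1 hd
    simpa using h1 _ _ hx

/-- relative enumerability with the empty oracle -/
theorem REIn.empty {α : Type*} [Primcodable α] {p : α → Prop} (hp : REIn (∅ : Set ℕ) p) :
    REPred p := by
  obtain ⟨R, hR, h⟩ := hp
  have e : ∀ k, seg (∅ : Set ℕ) k = (List.range k).map (fun _ => false) := by
    intro k; simp [seg]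
  refine (re_ex_nat (p := fun z : α × ℕ => R ((List.range z.2).map (fun _ => false), z.1)) ?_).of_eq
    fun a => by rw [h]; simp only [e]
  refine re_comp hR (Computable.pair ?_ Computable.fst)
  exact (Primrec.list_map (Primrec.list_range.comp Primrec.snd) (Primrec.const false).to₂).to_comp

/-- `f` is strongly traceable by `B`-c.e. traces -/
def SJTf (B : Set ℕ) (f : ℕ →. ℕ) : Prop :=
  ∀ h, IsOrder h → ∃ T, CETrace B T ∧ BoundedBy h T ∧ Captures T f

/-- `f` is traceable by a computably bounded c.e. trace -/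
def JTf (f : ℕ →. ℕ) : Prop :=
  ∃ h, IsOrder h ∧ ∃ T, CETrace ∅ T ∧ BoundedBy h T ∧ Captures T f

theorem CETrace.comp {B : Set ℕ} {T : ℕ → Set ℕ} (hT : CETrace B T) {r : ℕ → ℕ}
    (hr : Computable r) : CETrace B fun n => T (r n) := by
  rw [ceTrace_iff] at hT ⊢
  refine ⟨fun n => hT.1 _, ?_⟩
  exact hT.2.comp (f := fun z : ℕ × ℕ => (r z.1, z.2))
    (Computable.pair (hr.comp Computable.fst) Computable.snd)

theorem SJTf.comp {B : Set ℕ} {g : ℕ →. ℕ} (hg : SJTf B g) {r : ℕ → ℕ} (hr : Computable r) :
    SJTf B fun n => g (r n) := by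
  intro h hh
  obtain ⟨ν, hν, hν'⟩ := exists_inv hh
  obtain ⟨M, hM, hM1, hM2⟩ := exists_major hr hν
  obtain ⟨h1, hh1, hh2⟩ := exists_slow hM hM1
  obtain ⟨T, hT, hb, hc⟩ := hg h1 hh1
  refine ⟨fun n => T (r n), hT.comp hr, fun n => ?_, fun n m hm => hc _ _ hm⟩
  refine (hb (r n)).trans (hh2 (h n) (r n) ?_ (hM2 _ _ (hν' _ _ le_rfl)))
  exact hh.pos.trans (hh.mono (Nat.zero_le n))

theorem JTf.comp {g : ℕ →. ℕ} (hg : JTf g) {r : ℕ → ℕ} (hr : Computable r) :
    JTf fun n => g (r n) := by
  obtain ⟨h, hh, T, hT, hb, hc⟩ := hg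
  refine ⟨fun n => Nat.rec (motive := fun _ => ℕ) (h (r 0) + 1)
    (fun i IH => IH + (h (r (i + 1)) + 1)) n, ⟨?_, ?_, ?_, ?_⟩,
    fun n => T (r n), hT.comp hr, fun n => ?_, fun n m hm => hc _ _ hm⟩
  · refine Computable.nat_rec (f := fun n : ℕ => n) (g := fun _ => h (r 0) + 1)
      (h := fun (_ : ℕ) (p : ℕ × ℕ) => p.2 + (h (r (p.1 + 1)) + 1)) Computable.id
      (Computable.const _) ?_
    refine Primrec.nat_add.to_comp.comp (Computable.snd.comp Computable.snd) ?_
    exact Computable.succ.comp (hh.comp.comp (hr.comp (Computable.succ.comp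
      (Computable.fst.comp Computable.snd))))
  · refine monotone_nat_of_le_succ fun n => ?_
    exact Nat.le_add_right _ _
  · intro k
    refine ⟨k, ?_⟩
    induction k with
    | zero => exact Nat.zero_le _
    | succ k ih =>
      show k + 1 ≤ _ + (h (r (k + 1)) + 1)
      have : k ≤ (Nat.rec (motive := fun _ => ℕ) (h (r 0) + 1)
        (fun i IH => IH + (h (r (i + 1)) + 1)) k : ℕ) := ih
      omega
  · exact Nat.le_add_left 1 _
  · refine (hb (r n)).trans ?_
    cases n with
    | zero => exact Nat.le_succ _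
    | succ n =>
      show h (r (n + 1)) ≤ _ + (h (r (n + 1)) + 1)
      omega

/-- candidates: from a bounded c.e. trace to an enumerable family of single values -/
theorem exists_cand {g : ℕ → ℕ} {W : ℕ → Set ℕ} (hW : CETrace ∅ W) (hb : BoundedBy g W) :
    ∃ C : ℕ × ℕ × ℕ → Prop, REPred C ∧
      (∀ p c v v', C (p, c, v) → C (p, c, v') → v = v') ∧
      ∀ p v, v ∈ W p → ∃ c < g p, C (p, c, v) := by
  obtain ⟨hfin, hre⟩ := ceTrace_iff.1 hW
  obtain ⟨q, hq, hqW⟩ := re_iff.1 hre.empty
  let L : ℕ → ℕ → List ℕ := fun p t => Nat.rec (motive := fun _ => List ℕ) []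
    (fun i IH => cond (q (p, i.unpair.1) i.unpair.2 && IH.all (fun x => !decide (x = i.unpair.1)))
      (IH ++ [i.unpair.1]) IH) t
  have hLc : Computable₂ L := by
    refine Computable.nat_rec (f := fun z : ℕ × ℕ => z.2) (g := fun _ => ([] : List ℕ))
      (h := fun (z : ℕ × ℕ) (w : ℕ × List ℕ) =>
        cond (q (z.1, w.1.unpair.1) w.1.unpair.2 &&
          w.2.all (fun x => !decide (x = w.1.unpair.1)))
          (w.2 ++ [w.1.unpair.1]) w.2) Computable.snd (Computable.const _) ?_
    have c1 : Computable fun y : (ℕ × ℕ) × (ℕ × List ℕ) => y.2.1.unpair.1 :=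
      Computable.fst.comp (Computable.unpair.comp (Computable.fst.comp Computable.snd))
    have c2 : Computable fun y : (ℕ × ℕ) × (ℕ × List ℕ) => y.2.1.unpair.2 :=
      Computable.snd.comp (Computable.unpair.comp (Computable.fst.comp Computable.snd))
    have c3 : Computable fun y : (ℕ × ℕ) × (ℕ × List ℕ) => y.2.2 :=
      Computable.snd.comp Computable.snd
    refine Computable.cond (Primrec.and.to_comp.comp ?_ ?_) ?_ c3
    · exact hq.comp (Computable.pair (Computable.fst.comp Computable.fst) c1) c2
    · refine computable_all (f := fun y : (ℕ × ℕ) × (ℕ × List ℕ) => y.2.2)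
        (g := fun y x => !decide (x = y.2.1.unpair.1)) c3 ?_
      refine Primrec.not.to_comp.comp ?_
      exact (Primrec.eq.decide.to_comp).comp Computable.snd (c1.comp Computable.fst)
    · exact Computable.list_concat.comp c3 c1
  have hLs : ∀ p t, L p (t + 1) = cond (q (p, t.unpair.1) t.unpair.2 &&
      (L p t).all (fun x => !decide (x = t.unpair.1))) (L p t ++ [t.unpair.1]) (L p t) :=
    fun p t => rfl
  have hprefix1 : ∀ p t, L p t <+: L p (t + 1) := by
    intro p t
    rw [hLs]
    cases (q (p, t.unpair.1) t.unpair.2 && (L p t).all (fun x => !decide (x = t.unpair.1)))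
    · exact List.prefix_refl _
    · exact List.prefix_append _ _
  have hprefix : ∀ p t t', t ≤ t' → L p t <+: L p t' := by
    intro p t t' h
    induction t', h using Nat.le_induction with
    | base => exact List.prefix_refl _
    | succ t' _ ih => exact ih.trans (hprefix1 p t')
  have hsub : ∀ p t, ∀ v ∈ L p t, v ∈ W p := by
    intro p t
    induction t with
    | zero => intro v hv; exact absurd hv (by simp [L])
    | succ t ih =>
      intro v hv
      rw [hLs] at hv
      cases hcnd : (q (p, t.unpair.1) t.unpair.2 &&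
        (L p t).all (fun x => !decide (x = t.unpair.1)))
      · rw [hcnd] at hv; exact ih v hv
      · rw [hcnd] at hv
        rw [Bool.and_eq_true] at hcnd
        rcases List.mem_append.1 hv with h | h
        · exact ih v h
        · rw [List.mem_singleton] at h
          subst h
          exact (hqW (p, t.unpair.1)).2 ⟨_, hcnd.1⟩
  have hnodup : ∀ p t, (L p t).Nodup := by
    intro p t
    induction t with
    | zero => exact List.nodup_nil
    | succ t ih =>
      rw [hLs]
      cases hcnd : (q (p, t.unpair.1) t.unpair.2 &&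
        (L p t).all (fun x => !decide (x = t.unpair.1)))
      · exact ih
      · rw [Bool.and_eq_true] at hcnd
        have h2 := hcnd.2
        rw [List.all_eq_true] at h2
        simp only [cond_true]
        rw [List.nodup_append]
        refine ⟨ih, List.nodup_singleton _, ?_⟩
        intro a ha b hb' hab
        rw [List.mem_singleton] at hb'
        have := h2 a ha
        simp only [Bool.not_eq_true', decide_eq_false_iff_not] at this
        exact this (hab.trans hb')
  have hlen : ∀ p t, (L p t).length ≤ g p := by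
    intro p t
    refine le_trans ?_ (hb p)
    rw [← List.toFinset_card_of_nodup (hnodup p t), ← Set.ncard_coe_finset]
    refine Set.ncard_le_ncard ?_ (hfin p)
    intro v hv
    exact hsub p t v (by simpa using hv)
  refine ⟨fun z => ∃ t, (L z.1 t)[z.2.1]? = some z.2.2, ?_, ?_, ?_⟩
  · refine re_ex_nat (p := fun y : (ℕ × ℕ × ℕ) × ℕ => (L y.1.1 y.2)[y.1.2.1]? = some y.1.2.2) ?_
    refine re_of_comp (q := fun y : (ℕ × ℕ × ℕ) × ℕ =>
      decide ((L y.1.1 y.2)[y.1.2.1]? = some y.1.2.2)) ?_ (by simp)
    refine (Primrec.eq.decide.to_comp).comp ?_ ?_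
    · refine Computable.list_getElem?.comp (hLc.comp (Computable.fst.comp Computable.fst)
        Computable.snd) ?_
      exact Computable.fst.comp (Computable.snd.comp Computable.fst)
    · exact Computable.option_some.comp (Computable.snd.comp (Computable.snd.comp Computable.fst))
  · rintro p c v v' ⟨t, ht⟩ ⟨t', ht'⟩
    dsimp only at ht ht'
    have key : ∀ (l₁ l₂ : List ℕ) (w : ℕ), l₁ <+: l₂ → l₁[c]? = some w → l₂[c]? = some w := by
      rintro l₁ l₂ w ⟨r, rfl⟩ hw
      have hlt : c < l₁.length := by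
        by_contra hge
        rw [List.getElem?_eq_none (by omega)] at hw
        exact absurd hw (by simp)
      rw [List.getElem?_append_left hlt]
      exact hw
    have h1 := key _ _ _ (hprefix p t (max t t') (le_max_left _ _)) ht
    have h2 := key _ _ _ (hprefix p t' (max t t') (le_max_right _ _)) ht'
    rw [h1] at h2
    exact Option.some.inj h2
  · intro p v hv
    obtain ⟨s, hs⟩ := (hqW (p, v)).1 hv
    have hmem : v ∈ L p (Nat.pair v s + 1) := by
      rw [hLs]
      simp only [Nat.unpair_pair, hs, Bool.true_and]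
      cases hall : (L p (Nat.pair v s)).all (fun x => !decide (x = v))
      · simp only [cond_false]
        rw [List.all_eq_false] at hall
        obtain ⟨x, hx, hx'⟩ := hall
        simp only [Bool.not_eq_true', decide_eq_false_iff_not, not_not] at hx'
        subst hx'
        exact hx
      · simp
    obtain ⟨c, hc, hcv⟩ := List.getElem_of_mem hmem
    refine ⟨c, lt_of_lt_of_le hc (hlen p (Nat.pair v s + 1)), Nat.pair v s + 1, ?_⟩
    simp [List.getElem?_eq_getElem hc, hcv]

end Pool.Agent.LibHelper36.SJT
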