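import Mathlib
import Pool.Agent.Lib_helper36.SJT.Orders
import Pool.Agent.Lib_helper36.SJT.Comb

/-!
The certification relation is enumerable in `B`.
-/

open Encodable Denumerable
open Pool.Agent.Lib45

namespace Pool.Agent.LibHelper36.SJT

/-- variables in an environment -/
def vr : ℕ → List ℕ → ℕ
  | _, [] => 0
  | 0, x :: _ => x
  | i + 1, _ :: xs => vr i xs

theorem vr_eq (i : ℕ) (e : List ℕ) : vr i e = e.getD i 0 := by
  induction e generalizing i with
  | nil => simp [vr]
  | cons x xs ih =>
    cases i with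
    | zero => simp [vr]
    | succ i => simp [vr, ih]

theorem cv (i : ℕ) : Computable (vr i) := by
  refine ((Primrec.list_getD 0).comp Primrec.id (Primrec.const i)).to_comp.of_eq fun e => ?_
  exact (vr_eq i e).symm

theorem REIn.exE {B : Set ℕ} {P : List ℕ → Prop} (hP : REIn B P) :
    REIn B fun e => ∃ x, P (x :: e) := by
  refine REIn.ex (p := fun z : List ℕ × ℕ => P (z.2 :: z.1)) ?_
  exact hP.comp (Computable.list_cons.comp Computable.snd Computable.fst)

theorem REIn.ballE {B : Set ℕ} {P : List ℕ → Prop} (hP : REIn B P) {f : List ℕ → ℕ}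
    (hf : Computable f) : REIn B fun e => ∀ x < f e, P (x :: e) := by
  refine REIn.ball (p := fun z : List ℕ × ℕ => P (z.2 :: z.1)) ?_ hf
  exact hP.comp (Computable.list_cons.comp Computable.snd Computable.fst)

theorem computable_pow : Computable₂ fun b j : ℕ => b ^ j := by
  refine (Computable.nat_rec (f := fun z : ℕ × ℕ => z.2) (g := fun _ => 1)
    (h := fun (z : ℕ × ℕ) (w : ℕ × ℕ) => w.2 * z.1) Computable.snd (Computable.const _) ?_).of_eq
    fun z => ?_
  · exact Primrec.nat_mul.to_comp.comp (Computable.snd.comp Computable.snd)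
      (Computable.fst.comp Computable.fst)
  · obtain ⟨b, j⟩ := z
    show (Nat.rec (motive := fun _ => ℕ) 1 (fun y IH => IH * b) j : ℕ) = b ^ j
    induction j with
    | zero => simp
    | succ j ih => rw [pow_succ, ← ih]

theorem computable_NN : Computable NN :=
  computable_pow.comp (Computable.const 4)
    (Computable.succ.comp Computable.succ)

theorem computable_dig : Computable fun z : ℕ × ℕ × ℕ => dig z.1 z.2.1 z.2.2 := by
  unfold dig
  refine Primrec.nat_mod.to_comp.comp ?_ Computable.fst
  refine Primrec.nat_div.to_comp.comp (Computable.fst.comp Computable.snd) ?_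
  exact computable_pow.comp Computable.fst (Computable.snd.comp Computable.snd)

theorem computable_cmp : Computable fun z : List Bool × List Bool =>
    (decide (z.2.take z.1.length = z.1) || decide (z.1.take z.2.length = z.2)) := by
  refine Primrec.or.to_comp.comp ?_ ?_
  · exact Primrec.eq.decide.to_comp.comp (Primrec.list_take.to_comp.comp
      (Computable.list_length.comp Computable.fst) Computable.snd) Computable.fst
  · exact Primrec.eq.decide.to_comp.comp (Primrec.list_take.to_comp.comp
      (Computable.list_length.comp Computable.snd) Computable.fst) Computable.snd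

theorem cmp_iff (a b : List Bool) :
    Cmp a b ↔ (decide (b.take a.length = a) || decide (a.take b.length = b)) = true := by
  unfold Cmp
  rw [Bool.or_eq_true, decide_eq_true_eq, decide_eq_true_eq, List.prefix_iff_eq_take,
    List.prefix_iff_eq_take]
  constructor
  · rintro (h | h)
    · exact Or.inl h.symm
    · exact Or.inr h.symm
  · rintro (h | h)
    · exact Or.inl h.symm
    · exact Or.inr h.symm

variable {B : Set ℕ}

theorem REIn.dec {α : Type*} [Primcodable α] {p : α → Prop} {q : α → Bool} (hq : Computable q)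
    (h : ∀ a, p a ↔ q a = true) : REIn B p := REIn.of_comp hq h

theorem REIn.lt {α : Type*} [Primcodable α] {f g : α → ℕ} (hf : Computable f)
    (hg : Computable g) : REIn B fun a => f a < g a :=
  REIn.of_comp (q := fun a => decide (f a < g a)) (Primrec.nat_lt.decide.to_comp.comp hf hg)
    (by simp)

theorem REIn.eq {α : Type*} [Primcodable α] {f g : α → ℕ} (hf : Computable f)
    (hg : Computable g) : REIn B fun a => f a = g a :=
  REIn.of_comp (q := fun a => decide (f a = g a)) (Primrec.eq.decide.to_comp.comp hf hg)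
    (by simp)

theorem REIn.ne {α : Type*} [Primcodable α] {f g : α → ℕ} (hf : Computable f)
    (hg : Computable g) : REIn B fun a => f a ≠ g a :=
  REIn.of_comp (q := fun a => !decide (f a = g a))
    (Primrec.not.to_comp.comp (Primrec.eq.decide.to_comp.comp hf hg)) (by simp)

/-- implication from a decidable equality -/
theorem REIn.imp_eq {α : Type*} [Primcodable α] {f g : α → ℕ} (hf : Computable f)
    (hg : Computable g) {p : α → Prop} (hp : REIn B p) : REIn B fun a => f a = g a → p a :=
  ((REIn.ne (B := B) hf hg).or hp).of_eq fun a => by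
    rw [imp_iff_not_or]

theorem ct3 {α : Type*} [Primcodable α] {f g h : α → ℕ} (hf : Computable f)
    (hg : Computable g) (hh : Computable h) : Computable fun e => (f e, g e, h e) :=
  hf.pair (hg.pair hh)

theorem ct5 {α : Type*} [Primcodable α] {f g h k m : α → ℕ} (hf : Computable f)
    (hg : Computable g) (hh : Computable h) (hk : Computable k) (hm : Computable m) :
    Computable fun e => (f e, g e, h e, k e, m e) :=
  hf.pair (hg.pair (hh.pair (hk.pair hm)))

theorem ct6 {α : Type*} [Primcodable α] {f g h k m o : α → ℕ} (hf : Computable f)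
    (hg : Computable g) (hh : Computable h) (hk : Computable k) (hm : Computable m)
    (ho : Computable o) : Computable fun e => (f e, g e, h e, k e, m e, o e) :=
  hf.pair (hg.pair (hh.pair (hk.pair (hm.pair ho))))

theorem certRE {α : ℕ → ℕ → List Bool} (hα : Computable₂ α) {b : ℕ × ℕ × ℕ → ℕ}
    (hb : Computable b) {V : ℕ × ℕ × ℕ × ℕ × ℕ → Prop} (hV : REIn B V)
    {C : ℕ × ℕ × ℕ × ℕ × ℕ × ℕ → Prop} (hC : REIn B C)
    {T : ℕ × ℕ × ℕ × ℕ × ℕ × ℕ → Prop} (hT : REIn B T) :
    REIn B fun e : List ℕ =>
      Cert α (fun l => b (vr 3 e, vr 2 e, l)) (fun l j τ => V (vr 3 e, vr 2 e, l, j, τ))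
        (fun l j c τ => C (vr 3 e, vr 2 e, l, j, c, τ))
        (fun i l c => {j' | T (i, vr 3 e, vr 2 e, l, c, j')}) (vr 1 e) (vr 0 e) := by
  -- environment τ' :: c0' :: j' :: c :: i :: c0 :: j :: τ :: l :: n :: a :: []
  have h1 : REIn B fun e : List ℕ =>
      dig (b (vr 10 e, vr 9 e, vr 8 e)) (vr 3 e) (vr 2 e) = vr 1 e + 1 ∧
      C (vr 10 e, vr 9 e, vr 8 e, vr 2 e, vr 1 e, vr 0 e) ∧
      T (vr 4 e, vr 10 e, vr 9 e, vr 8 e, vr 3 e, vr 2 e) ∧
      Cmp (α (vr 4 e) (vr 0 e)) (α (vr 4 e) (vr 7 e)) := by
    refine REIn.and ?_ (REIn.and ?_ (REIn.and ?_ ?_))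
    · exact REIn.eq (computable_dig.comp ((hb.comp (ct3 (cv 10) (cv 9) (cv 8))).pair
        ((cv 3).pair (cv 2)))) (Computable.succ.comp (cv 1))
    · exact hC.comp (ct6 (cv 10) (cv 9) (cv 8) (cv 2) (cv 1) (cv 0))
    · exact hT.comp (ct6 (cv 4) (cv 10) (cv 9) (cv 8) (cv 3) (cv 2))
    · exact REIn.dec (computable_cmp.comp ((hα.comp (cv 4) (cv 0)).pair
        (hα.comp (cv 4) (cv 7)))) (fun e => cmp_iff _ _)
  have h2 := REIn.exE h1
  have h3 := REIn.exE h2
  -- environment j' :: c :: i :: c0 :: j :: τ :: l :: n :: a :: []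
  have h4 := REIn.and (REIn.lt (B := B) (cv 0) (computable_NN.comp (cv 6))) h3
  have h5 := REIn.exE h4
  -- environment c :: i :: c0 :: j :: τ :: l :: n :: a :: []
  have h6 := REIn.imp_eq (B := B) (computable_dig.comp ((hb.comp (ct3 (cv 7) (cv 6) (cv 5))).pair
        ((cv 0).pair (cv 3)))) (Computable.succ.comp (cv 2)) h5
  -- environment i :: c0 :: j :: τ :: l :: n :: a :: []
  have h7 := REIn.ballE h6 (f := fun e => b (vr 6 e, vr 5 e, vr 4 e) ^ NN (vr 4 e))
    (computable_pow.comp (hb.comp (ct3 (cv 6) (cv 5) (cv 4))) (computable_NN.comp (cv 4)))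
  -- environment c0 :: j :: τ :: l :: n :: a :: []
  have h8 := REIn.ballE h7 (f := fun _ => 2) (Computable.const _)
  have h9 := REIn.and (REIn.lt (B := B) (Computable.succ.comp (cv 0))
    (hb.comp (ct3 (cv 5) (cv 4) (cv 3))))
    (REIn.and (hC.comp (ct6 (cv 5) (cv 4) (cv 3) (cv 1) (cv 0) (cv 2))) h8)
  have h10 := REIn.exE h9
  -- environment j :: τ :: l :: n :: a :: []
  have h11 := REIn.and (REIn.lt (B := B) (cv 0) (computable_NN.comp (cv 2)))
      (REIn.and (hV.comp (ct5 (cv 4) (cv 3) (cv 2) (cv 0) (cv 1))) h10)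
  have h12 := REIn.exE h11
  exact h12

end Pool.Agent.LibHelper36.SJT
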