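import Mathlib
import Pool.Agent.Lib_helper36.SJT.Orders
import Pool.Agent.Lib_helper36.SJT.Comb

/-!
Approximating a partial function computable in a join: the candidates are pairs of strings.
-/

open Encodable Denumerable
open Pool.Agent.Lib45

namespace Pool.Agent.LibHelper36.SJT

/-- interleave two strings of the same length -/
def weave (σ₀ σ₁ : List Bool) : List Bool :=
  (List.range (2 * σ₀.length)).map (fun i =>
    cond (decide (i % 2 = 0)) (σ₀.getD (i / 2) false) (σ₁.getD (i / 2) false))

theorem computable_weave : Computable₂ weave := by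
  have h : Primrec₂ fun (z : List Bool × List Bool) (i : ℕ) =>
      cond (decide (i % 2 = 0)) (z.1.getD (i / 2) false) (z.2.getD (i / 2) false) := by
    have hd : Primrec fun w : (List Bool × List Bool) × ℕ => w.2 / 2 :=
      Primrec.nat_div.comp Primrec.snd (Primrec.const 2)
    refine Primrec.cond ?_ ?_ ?_
    · exact Primrec.eq.decide.comp (Primrec.nat_mod.comp Primrec.snd (Primrec.const 2))
        (Primrec.const 0)
    · exact (Primrec.list_getD false).comp (Primrec.fst.comp Primrec.fst) hd
    · exact (Primrec.list_getD false).comp (Primrec.snd.comp Primrec.fst) hd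
  have h2 : Primrec fun z : List Bool × List Bool => List.range (2 * z.1.length) :=
    Primrec.list_range.comp (Primrec.nat_mul.comp (Primrec.const 2)
      (Primrec.list_length.comp Primrec.fst))
  exact (Primrec.list_map h2 h).to_comp

theorem mem_join_even {A₀ A₁ : Set ℕ} {x : ℕ} (hx : x % 2 = 0) :
    x ∈ join A₀ A₁ ↔ x / 2 ∈ A₀ := by
  unfold join
  simp only [Set.mem_ofPred_eq]
  constructor
  · rintro (⟨n, hn, rfl⟩ | ⟨n, hn, rfl⟩)
    · simpa using hn
    · omega
  · intro h
    exact Or.inl ⟨x / 2, h, by omega⟩

theorem mem_join_odd {A₀ A₁ : Set ℕ} {x : ℕ} (hx : ¬ x % 2 = 0) :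
    x ∈ join A₀ A₁ ↔ x / 2 ∈ A₁ := by
  unfold join
  simp only [Set.mem_ofPred_eq]
  constructor
  · rintro (⟨n, hn, rfl⟩ | ⟨n, hn, rfl⟩)
    · omega
    · have : (2 * n + 1) / 2 = n := by omega
      rwa [this]
  · intro h
    exact Or.inr ⟨x / 2, h, by omega⟩

theorem weave_seg (A₀ A₁ : Set ℕ) (u : ℕ) :
    weave (seg A₀ u) (seg A₁ u) = seg (join A₀ A₁) (2 * u) := by
  classical
  unfold weave
  rw [seg_length]
  show _ = (List.range (2 * u)).map _
  refine List.map_congr_left fun i hi => ?_
  rw [List.mem_range] at hi
  have hi2 : i / 2 < u := by omega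
  simp only [List.getD_eq_getElem?_getD, seg_getElem?, if_pos hi2, Option.getD_some]
  by_cases h : i % 2 = 0
  · simp only [h, decide_true, cond_true]
    rw [decide_eq_decide]
    exact (mem_join_even h).symm
  · simp only [h, decide_false, cond_false]
    rw [decide_eq_decide]
    exact (mem_join_odd h).symm

/-- decoding a candidate -/
def dec (τ : ℕ) : List Bool × List Bool :=
  (decode (α := List Bool × List Bool) τ).getD ([], [])

/-- the two sides of a candidate -/
def side (i τ : ℕ) : List Bool := cond (decide (i = 0)) (dec τ).1 (dec τ).2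

theorem computable_dec : Computable dec :=
  Primrec.option_getD.to_comp.comp Computable.decode (Computable.const _)

theorem computable_side : Computable₂ side := by
  refine Computable.cond ?_ (Computable.fst.comp (computable_dec.comp Computable.snd))
    (Computable.snd.comp (computable_dec.comp Computable.snd))
  exact Primrec.eq.decide.to_comp.comp Computable.fst (Computable.const 0)

theorem side_zero (τ : ℕ) : side 0 τ = (dec τ).1 := rfl
theorem side_one (τ : ℕ) : side 1 τ = (dec τ).2 := rfl

theorem re_uniformize {P : ℕ × ℕ → Prop} (hP : REPred P) :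
    ∃ Q : ℕ × ℕ → Prop, REPred Q ∧ (∀ z, Q z → P z) ∧
      (∀ a m m', Q (a, m) → Q (a, m') → m = m') ∧ ∀ a m, P (a, m) → ∃ m', Q (a, m') := by
  obtain ⟨f, hf, h1, h2⟩ := (REIn.of_re (X := ∅) hP).select
  refine ⟨fun z => z.2 ∈ f z.1, hf.graph.empty, fun z hz => h1 _ _ hz,
    fun a m m' h h' => Part.mem_unique h h', fun a m h => ?_⟩
  exact Part.dom_iff_mem.1 (h2 a m h)

/-- the candidates for a partial function computable in a join -/
theorem exists_target {A₀ A₁ : Set ℕ} {f : ℕ →. ℕ} (hf : PCIn (join A₀ A₁) f) :
    ∃ lg : ℕ × ℕ → Bool, Computable lg ∧ ∃ Val : ℕ × ℕ × ℕ → Prop, REPred Val ∧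
      (∀ n τ m m', Val (n, τ, m) → Val (n, τ, m') → m = m') ∧
      (∀ n τ τ', lg (n, τ) = true → lg (n, τ') = true → τ ≠ τ' →
        ¬ Cmp (side 0 τ) (side 0 τ') ∨ ¬ Cmp (side 1 τ) (side 1 τ')) ∧
      ∀ n m, m ∈ f n → ∃ τ, lg (n, τ) = true ∧ (∃ k, side 0 τ = seg A₀ k) ∧
        (∃ k, side 1 τ = seg A₁ k) ∧ Val (n, τ, m) := by
  obtain ⟨R, hR, hRf⟩ := hf.graph
  -- convergence on a string
  have hP : REPred fun z : List Bool × ℕ => ∃ m, R (z.1, (z.2, m)) := by
    refine re_ex (p := fun y : (List Bool × ℕ) × ℕ => R (y.1.1, (y.1.2, y.2))) ?_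
    exact re_comp hR (Computable.pair (Computable.fst.comp Computable.fst)
      (Computable.pair (Computable.snd.comp Computable.fst) Computable.snd))
  obtain ⟨q, hq, hqP⟩ := re_iff.1 hP
  let D : List Bool → ℕ → Bool := fun σ n =>
    bex (fun k => bex (fun t => q (σ.take k, n) t) (σ.length + 1)) (σ.length + 1)
  have hDc : Computable₂ D := by
    have hl : Computable fun z : (List Bool × ℕ) => z.1.length + 1 :=
      Computable.succ.comp (Computable.list_length.comp Computable.fst)
    refine computable_bex (f := fun z : List Bool × ℕ => z.1.length + 1)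
      (P := fun z k => bex (fun t => q (z.1.take k, z.2) t) (z.1.length + 1)) hl ?_
    refine computable_bex (f := fun y : (List Bool × ℕ) × ℕ => y.1.1.length + 1)
      (P := fun y t => q (y.1.1.take y.2, y.1.2) t) (hl.comp Computable.fst) ?_
    refine hq.comp (Computable.pair ?_ ?_) Computable.snd
    · exact Primrec.list_take.to_comp.comp (Computable.snd.comp Computable.fst)
        (Computable.fst.comp (Computable.fst.comp Computable.fst))
    · exact Computable.snd.comp (Computable.fst.comp Computable.fst)
  have hD : ∀ σ n, D σ n = true ↔ ∃ k < σ.length + 1, ∃ t < σ.length + 1,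
      q (σ.take k, n) t = true := by
    intro σ n
    simp only [D, bex_iff]
  -- legitimate candidates
  let Dp : ℕ → ℕ → ℕ → Bool := fun τ n u =>
    D (weave ((dec τ).1.take u) ((dec τ).2.take u)) n
  let lg : ℕ × ℕ → Bool := fun z =>
    decide (encode (dec z.2) = z.2) &&
    (decide ((dec z.2).1.length = (dec z.2).2.length) &&
      (Dp z.2 z.1 (dec z.2).1.length && !(bex (fun u => Dp z.2 z.1 u) (dec z.2).1.length)))
  have hDpc : Computable fun y : (ℕ × ℕ) × ℕ => Dp y.1.2 y.1.1 y.2 := by
    refine hDc.comp (computable_weave.comp ?_ ?_) (Computable.fst.comp Computable.fst)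
    · exact Primrec.list_take.to_comp.comp Computable.snd
        (Computable.fst.comp (computable_dec.comp (Computable.snd.comp Computable.fst)))
    · exact Primrec.list_take.to_comp.comp Computable.snd
        (Computable.snd.comp (computable_dec.comp (Computable.snd.comp Computable.fst)))
  have hl1 : Computable fun z : ℕ × ℕ => (dec z.2).1.length :=
    Computable.list_length.comp (Computable.fst.comp (computable_dec.comp Computable.snd))
  have hl2 : Computable fun z : ℕ × ℕ => (dec z.2).2.length :=
    Computable.list_length.comp (Computable.snd.comp (computable_dec.comp Computable.snd))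
  have hlgc : Computable lg := by
    have g1 : Computable fun z : ℕ × ℕ => decide (encode (dec z.2) = z.2) :=
      Primrec.eq.decide.to_comp.comp (Computable.encode.comp (computable_dec.comp
        Computable.snd)) Computable.snd
    have g2 : Computable fun z : ℕ × ℕ => decide ((dec z.2).1.length = (dec z.2).2.length) :=
      Primrec.eq.decide.to_comp.comp hl1 hl2
    have g3 : Computable fun z : ℕ × ℕ => Dp z.2 z.1 (dec z.2).1.length :=
      hDpc.comp (f := fun y : (ℕ × ℕ) × ℕ => Dp y.1.2 y.1.1 y.2)
        (g := fun z : ℕ × ℕ => (z, (dec z.2).1.length)) (Computable.pair Computable.id hl1)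
    have g4 : Computable fun z : ℕ × ℕ => bex (fun u => Dp z.2 z.1 u) (dec z.2).1.length :=
      computable_bex (f := fun z : ℕ × ℕ => (dec z.2).1.length)
        (P := fun z u => Dp z.2 z.1 u) hl1 hDpc
    exact Primrec.and.to_comp.comp g1 (Primrec.and.to_comp.comp g2
      (Primrec.and.to_comp.comp g3 (Primrec.not.to_comp.comp g4)))
  have hlg : ∀ n τ, lg (n, τ) = true ↔ encode (dec τ) = τ ∧
      (dec τ).1.length = (dec τ).2.length ∧
      D (weave (dec τ).1 (dec τ).2) n = true ∧
      ∀ u < (dec τ).1.length, ¬ D (weave ((dec τ).1.take u) ((dec τ).2.take u)) n = true := by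
    intro n τ
    simp only [lg, Dp, Bool.and_eq_true, decide_eq_true_eq, Bool.not_eq_true']
    refine and_congr_right fun _ => and_congr_right fun hlen => ?_
    rw [List.take_length, hlen, List.take_length, ← hlen]
    refine and_congr_right fun _ => ?_
    rw [← Bool.not_eq_true, bex_iff]
    push Not
    rfl
  -- values
  have hVal0 : REPred fun z : ℕ × ℕ =>
      ∃ k, R ((weave (dec z.1.unpair.2).1 (dec z.1.unpair.2).2).take k, (z.1.unpair.1, z.2)) := by
    refine re_ex_nat (p := fun y : (ℕ × ℕ) × ℕ =>
      R ((weave (dec y.1.1.unpair.2).1 (dec y.1.1.unpair.2).2).take y.2,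
        (y.1.1.unpair.1, y.1.2))) ?_
    refine re_comp hR (Computable.pair ?_ (Computable.pair ?_ ?_))
    · have : Computable fun y : (ℕ × ℕ) × ℕ => dec y.1.1.unpair.2 :=
        computable_dec.comp (Computable.snd.comp (Computable.unpair.comp
          (Computable.fst.comp Computable.fst)))
      exact Primrec.list_take.to_comp.comp Computable.snd
        (computable_weave.comp (Computable.fst.comp this) (Computable.snd.comp this))
    · exact Computable.fst.comp (Computable.unpair.comp (Computable.fst.comp Computable.fst))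
    · exact Computable.snd.comp Computable.fst
  obtain ⟨Q, hQ, hQ1, hQ2, hQ3⟩ := re_uniformize hVal0
  refine ⟨lg, hlgc, fun z => Q (Nat.pair z.1 z.2.1, z.2.2), ?_, ?_, ?_, ?_⟩
  · exact re_comp hQ (Computable.pair (Primrec₂.natPair.to_comp.comp Computable.fst
      (Computable.fst.comp Computable.snd)) (Computable.snd.comp Computable.snd))
  · intro n τ m m' h h'
    exact hQ2 _ _ _ h h'
  · -- two legitimate candidates are incomparable on one side
    have key : ∀ n τ τ', lg (n, τ) = true → lg (n, τ') = true →
        (dec τ).1.length ≤ (dec τ').1.length → Cmp (side 0 τ) (side 0 τ') →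
        Cmp (side 1 τ) (side 1 τ') → τ = τ' := by
      intro n τ τ' h h' hle h0 h1
      rw [side_zero, side_zero] at h0
      rw [side_one, side_one] at h1
      obtain ⟨henc, hlen, hD1, -⟩ := (hlg _ _).1 h
      obtain ⟨henc', hlen', -, hmin⟩ := (hlg _ _).1 h'
      have p0 : (dec τ).1 = (dec τ').1.take (dec τ).1.length := by
        rcases h0 with h0 | h0
        · exact List.prefix_iff_eq_take.1 h0
        · have : (dec τ').1 = (dec τ).1 := h0.eq_of_length (le_antisymm h0.length_le hle)
          rw [this, List.take_length]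
      have p1 : (dec τ).2 = (dec τ').2.take (dec τ).1.length := by
        rcases h1 with h1 | h1
        · rw [hlen]; exact List.prefix_iff_eq_take.1 h1
        · have : (dec τ').2 = (dec τ).2 := h1.eq_of_length
            (le_antisymm h1.length_le (by omega))
          rw [this, hlen, List.take_length]
      rcases Nat.lt_or_eq_of_le hle with hlt | heq
      · exfalso
        have := hmin _ hlt
        rw [← p0, ← p1] at this
        exact this hD1
      · have e1 : (dec τ).1 = (dec τ').1 := by rw [p0, heq, List.take_length]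
        have e2 : (dec τ).2 = (dec τ').2 := by rw [p1, heq, hlen', List.take_length]
        have e3 : dec τ = dec τ' := Prod.ext e1 e2
        rw [← henc, ← henc', e3]
    intro n τ τ' h h' hne
    by_contra hcon
    push Not at hcon
    rcases le_total (dec τ).1.length (dec τ').1.length with hle | hle
    · exact hne (key n τ τ' h h' hle hcon.1 hcon.2)
    · exact hne (key n τ' τ h' h hle hcon.1.symm hcon.2.symm).symm
  · -- the true candidate
    intro n m hm
    obtain ⟨k, hk⟩ := (hRf (n, m)).1 hm
    obtain ⟨t, ht⟩ := (hqP (seg (join A₀ A₁) k, n)).1 ⟨m, hk⟩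
    have hex : ∃ u, D (weave (seg A₀ u) (seg A₁ u)) n = true := by
      refine ⟨max k t, (hD _ _).2 ⟨k, ?_, t, ?_, ?_⟩⟩
      · rw [weave_seg, seg_length]
        have := le_max_left k t
        omega
      · rw [weave_seg, seg_length]
        have := le_max_right k t
        omega
      · rw [weave_seg, seg_take_le]
        · exact ht
        · have := le_max_left k t
          omega
    classical
    let u := Nat.find hex
    have hu : D (weave (seg A₀ u) (seg A₁ u)) n = true := Nat.find_spec hex
    have humin : ∀ u' < u, ¬ D (weave (seg A₀ u') (seg A₁ u')) n = true :=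
      fun u' hu' => Nat.find_min hex hu'
    let τ := encode (seg A₀ u, seg A₁ u)
    have hdec : dec τ = (seg A₀ u, seg A₁ u) := by simp [dec, τ]
    have hlgτ : lg (n, τ) = true := by
      rw [hlg, hdec]
      refine ⟨rfl, by simp, hu, fun u' hu' => ?_⟩
      simp only [seg_length] at hu'
      rw [seg_take_le _ hu'.le, seg_take_le _ hu'.le]
      exact humin u' hu'
    refine ⟨τ, hlgτ, ⟨u, by rw [side_zero, hdec]⟩, ⟨u, by rw [side_one, hdec]⟩, ?_⟩
    -- the value
    obtain ⟨k', -, t', -, ht'⟩ := (hD _ _).1 hu
    obtain ⟨m', hm'⟩ := (hqP _).2 ⟨t', ht'⟩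
    obtain ⟨m'', hm''⟩ := hQ3 (Nat.pair n τ) m' ⟨k', by
      simp only [Nat.unpair_pair, hdec]; exact hm'⟩
    obtain ⟨k'', hk''⟩ := hQ1 _ hm''
    simp only [Nat.unpair_pair, hdec, weave_seg, seg_take] at hk''
    have : m'' ∈ f n := (hRf (n, m'')).2 ⟨_, hk''⟩
    rw [Part.mem_unique hm this]
    exact hm''

end Pool.Agent.LibHelper36.SJT
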