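import Mathlib
import Pool.Agent.Lib_helper36.SJT.CertRE
import Pool.Agent.Lib_helper36.SJT.Target

/-!
Assembly: strong traceability relative to a jump-traceable `B` passes to joins.
-/

open Encodable Denumerable
open Pool.Agent.Lib45

namespace Pool.Agent.LibHelper36.SJT

theorem pair_mono {a a' b b' : ℕ} (h : a ≤ a') (h' : b ≤ b') : Nat.pair a b ≤ Nat.pair a' b' := by
  calc Nat.pair a b ≤ Nat.pair a' b := by
        rcases Nat.lt_or_eq_of_le h with h | h
        · exact (Nat.pair_lt_pair_left b h).le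
        · rw [h]
    _ ≤ Nat.pair a' b' := by
        rcases Nat.lt_or_eq_of_le h' with h | h
        · exact (Nat.pair_lt_pair_right a' h).le
        · rw [h]

theorem seg_cmp {X : Set ℕ} {σ τ : List Bool} (h : ∃ k, σ = seg X k) (h' : ∃ k, τ = seg X k) :
    Cmp σ τ := by
  obtain ⟨k, rfl⟩ := h
  obtain ⟨k', rfl⟩ := h'
  rcases le_total k k' with h | h
  · refine Or.inl (List.prefix_iff_eq_take.2 ?_)
    rw [seg_length, seg_take_le X h]
  · refine Or.inr (List.prefix_iff_eq_take.2 ?_)
    rw [seg_length, seg_take_le X h]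

theorem re_of_finite {α : Type*} [Primcodable α] {S : Set α} (hS : S.Finite) :
    REPred fun a => a ∈ S := by
  classical
  induction S, hS using Set.Finite.induction_on with
  | empty => exact re_of_comp (q := fun _ => false) (Computable.const _) (by simp)
  | @insert a s _ _ ih =>
    refine (re_or (re_of_comp (q := fun x => decide (x = a)) ?_ (by simp)) ih).of_eq
      (p := fun x => x = a ∨ x ∈ s) fun x => by rw [Set.mem_insert_iff]
    exact (Primrec.eq.comp Primrec.id (Primrec.const a)).decide.to_comp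

/-- the address of the `j`-th message at level `l` for `n` (index `a`) -/
def adB (a n l j : ℕ) : ℕ := Nat.pair a.unpair.2.unpair.2 (Nat.pair a (Nat.pair n (Nat.pair l j)))

/-- the address of box `c` on side `i` -/
def ad (i a n l c : ℕ) : ℕ :=
  Nat.pair (cond (decide (i = 0)) a.unpair.1 a.unpair.2.unpair.1)
    (Nat.pair a (Nat.pair n (Nat.pair l c)))

theorem computable_tri {α : Type*} [Primcodable α] {f g h : α → ℕ} (hf : Computable f)
    (hg : Computable g) (hh : Computable h) :
    Computable fun e => Nat.pair (f e) (Nat.pair (g e) (h e)) :=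
  Primrec₂.natPair.to_comp.comp hf (Primrec₂.natPair.to_comp.comp hg hh)

theorem computable_adB {α : Type*} [Primcodable α] {f g h k : α → ℕ} (hf : Computable f)
    (hg : Computable g) (hh : Computable h) (hk : Computable k) :
    Computable fun e => adB (f e) (g e) (h e) (k e) := by
  unfold adB
  refine Primrec₂.natPair.to_comp.comp ?_ (Primrec₂.natPair.to_comp.comp hf
    (computable_tri hg hh hk))
  exact Computable.snd.comp (Computable.unpair.comp (Computable.snd.comp
    (Computable.unpair.comp hf)))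

theorem computable_ad {α : Type*} [Primcodable α] {i f g h k : α → ℕ} (hi : Computable i)
    (hf : Computable f) (hg : Computable g) (hh : Computable h) (hk : Computable k) :
    Computable fun e => ad (i e) (f e) (g e) (h e) (k e) := by
  unfold ad
  refine Primrec₂.natPair.to_comp.comp ?_ (Primrec₂.natPair.to_comp.comp hf
    (computable_tri hg hh hk))
  refine Computable.cond (Primrec.eq.decide.to_comp.comp hi (Computable.const 0)) ?_ ?_
  · exact Computable.fst.comp (Computable.unpair.comp hf)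
  · exact Computable.fst.comp (Computable.unpair.comp (Computable.snd.comp
      (Computable.unpair.comp hf)))

theorem adB_le {a n l j l' ν : ℕ} (ha : a ≤ l') (hn : n ≤ ν) (hl : l ≤ l') {j' : ℕ}
    (hj : j ≤ j') : adB a n l j ≤ Nat.pair l' (Nat.pair l' (Nat.pair ν (Nat.pair l' j'))) := by
  unfold adB
  refine pair_mono ?_ (pair_mono ha (pair_mono hn (pair_mono hl hj)))
  exact (Nat.unpair_right_le _).trans ((Nat.unpair_right_le _).trans ha)

theorem ad_le {i a n l c l' ν : ℕ} (ha : a ≤ l') (hn : n ≤ ν) (hl : l ≤ l') {c' : ℕ}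
    (hc : c ≤ c') : ad i a n l c ≤ Nat.pair l' (Nat.pair l' (Nat.pair ν (Nat.pair l' c'))) := by
  unfold ad
  refine pair_mono ?_ (pair_mono ha (pair_mono hn (pair_mono hl hc)))
  cases decide (i = 0)
  · exact (Nat.unpair_left_le _).trans ((Nat.unpair_right_le _).trans ha)
  · exact (Nat.unpair_left_le _).trans ha

/-- the box functionals -/
theorem exists_box {A : Set ℕ} (i : ℕ) {b : ℕ × ℕ × ℕ → ℕ} (hb : Computable b)
    {C : ℕ × ℕ × ℕ → Prop} (hC : REPred C) :
    ∃ f, PCIn A f ∧ ∀ a n l c,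
      (∀ j, j ∈ f (Nat.pair a (Nat.pair n (Nat.pair l c))) → j < NN l ∧ ∃ c0 τ,
        dig (b (a, n, l)) c j = c0 + 1 ∧ C (adB a n l j, c0, τ) ∧ ∃ k, side i τ = seg A k) ∧
      (∀ j, j < NN l → (∃ c0 τ, dig (b (a, n, l)) c j = c0 + 1 ∧ C (adB a n l j, c0, τ) ∧
        ∃ k, side i τ = seg A k) → (f (Nat.pair a (Nat.pair n (Nat.pair l c)))).Dom) := by
  -- environment τ :: c0 :: j :: c :: l :: n :: a :: []
  have h1 : REIn A fun e : List ℕ =>
      dig (b (vr 6 e, vr 5 e, vr 4 e)) (vr 3 e) (vr 2 e) = vr 1 e + 1 ∧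
      C (adB (vr 6 e) (vr 5 e) (vr 4 e) (vr 2 e), vr 1 e, vr 0 e) ∧
      ∃ k, side i (vr 0 e) = seg A k := by
    refine REIn.and ?_ (REIn.and ?_ ?_)
    · exact REIn.eq (computable_dig.comp ((hb.comp (ct3 (cv 6) (cv 5) (cv 4))).pair
        ((cv 3).pair (cv 2)))) (Computable.succ.comp (cv 1))
    · exact REIn.of_re (re_comp hC (ct3 (computable_adB (cv 6) (cv 5) (cv 4) (cv 2)) (cv 1)
        (cv 0)))
    · exact REIn.isSeg.comp (computable_side.comp (Computable.const i) (cv 0))
  have h2 := REIn.exE h1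
  have h3 := REIn.exE h2
  have h4 := REIn.and (REIn.lt (B := A) (cv 0) (computable_NN.comp (cv 2))) h3
  have c1 : Computable fun z : ℕ × ℕ => z.1.unpair.1 :=
    Computable.fst.comp (Computable.unpair.comp Computable.fst)
  have c2 : Computable fun z : ℕ × ℕ => z.1.unpair.2 :=
    Computable.snd.comp (Computable.unpair.comp Computable.fst)
  have c21 : Computable fun z : ℕ × ℕ => z.1.unpair.2.unpair.1 :=
    Computable.fst.comp (Computable.unpair.comp c2)
  have c22 : Computable fun z : ℕ × ℕ => z.1.unpair.2.unpair.2 :=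
    Computable.snd.comp (Computable.unpair.comp c2)
  have h5 := h4.comp (f := fun z : ℕ × ℕ => [z.2, z.1.unpair.2.unpair.2.unpair.2,
    z.1.unpair.2.unpair.2.unpair.1, z.1.unpair.2.unpair.1, z.1.unpair.1])
    (Computable.list_cons.comp Computable.snd
      (Computable.list_cons.comp (Computable.snd.comp (Computable.unpair.comp c22))
      (Computable.list_cons.comp (Computable.fst.comp (Computable.unpair.comp c22))
      (Computable.list_cons.comp c21
      (Computable.list_cons.comp c1 (Computable.const []))))))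
  obtain ⟨f, hf, hf1, hf2⟩ := h5.select
  refine ⟨f, hf, fun a n l c => ⟨fun j hj => ?_, fun j hj hex => ?_⟩⟩
  · have := hf1 _ _ hj
    simp only [Nat.unpair_pair, vr] at this
    exact this
  · refine hf2 _ j ?_
    simp only [Nat.unpair_pair, vr]
    exact ⟨hj, hex⟩

/-- the message functional -/
theorem exists_msg {B : Set ℕ} {UB : ℕ →. ℕ} (hUB : PCIn B UB) {b : ℕ × ℕ × ℕ → ℕ}
    (hb : Computable b) {C : ℕ × ℕ × ℕ → Prop} (hC : REPred C)
    {T : ℕ × ℕ × ℕ × ℕ × ℕ × ℕ → Prop} (hT : REIn B T) {lg : ℕ × ℕ → Bool} (hlg : Computable lg)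
    {k : ℕ → ℕ} (hk : Computable k) :
    (REIn B fun e : List ℕ => Cert side (fun l => b (vr 3 e, vr 2 e, l))
        (fun l j τ => τ ∈ UB (adB (vr 3 e) (vr 2 e) l j))
        (fun l j c τ => C (adB (vr 3 e) (vr 2 e) l j, c, τ))
        (fun i l c => {j' | T (i, vr 3 e, vr 2 e, l, c, j')}) (vr 1 e) (vr 0 e)) ∧
    ∃ f, PCIn B f ∧ ∀ a n l j,
      (∀ τ, τ ∈ f (Nat.pair a (Nat.pair n (Nat.pair l j))) →
        Elig side (fun τ => lg (n, τ) = true) (k n) (fun l => b (a, n, l))
          (fun l j τ => τ ∈ UB (adB a n l j)) (fun l j c τ => C (adB a n l j, c, τ))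
          (fun i l c => {j' | T (i, a, n, l, c, j')}) l τ ∧
        ∀ j' < j, ∃ v, v ∈ UB (adB a n l j') ∧ v ≠ τ) ∧
      (∀ τ, Elig side (fun τ => lg (n, τ) = true) (k n) (fun l => b (a, n, l))
          (fun l j τ => τ ∈ UB (adB a n l j)) (fun l j c τ => C (adB a n l j, c, τ))
          (fun i l c => {j' | T (i, a, n, l, c, j')}) l τ →
        (∀ j' < j, ∃ v, v ∈ UB (adB a n l j') ∧ v ≠ τ) →
        (f (Nat.pair a (Nat.pair n (Nat.pair l j)))).Dom) := by
  have hV : REIn B fun z : ℕ × ℕ × ℕ × ℕ × ℕ => z.2.2.2.2 ∈ UB (adB z.1 z.2.1 z.2.2.1 z.2.2.2.1) := by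
    have q1 : Computable fun z : ℕ × ℕ × ℕ × ℕ × ℕ => z.1 := Computable.fst
    have q2 : Computable fun z : ℕ × ℕ × ℕ × ℕ × ℕ => z.2 := Computable.snd
    have q3 : Computable fun z : ℕ × ℕ × ℕ × ℕ × ℕ => z.2.2 := Computable.snd.comp q2
    have q4 : Computable fun z : ℕ × ℕ × ℕ × ℕ × ℕ => z.2.2.2 := Computable.snd.comp q3
    exact hUB.graph.comp (Computable.pair (computable_adB q1 (Computable.fst.comp q2)
      (Computable.fst.comp q3) (Computable.fst.comp q4)) (Computable.snd.comp q4))
  have hCC : REIn B fun z : ℕ × ℕ × ℕ × ℕ × ℕ × ℕ =>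
      C (adB z.1 z.2.1 z.2.2.1 z.2.2.2.1, z.2.2.2.2.1, z.2.2.2.2.2) := by
    have q1 : Computable fun z : ℕ × ℕ × ℕ × ℕ × ℕ × ℕ => z.1 := Computable.fst
    have q2 : Computable fun z : ℕ × ℕ × ℕ × ℕ × ℕ × ℕ => z.2 := Computable.snd
    have q3 : Computable fun z : ℕ × ℕ × ℕ × ℕ × ℕ × ℕ => z.2.2 := Computable.snd.comp q2
    have q4 : Computable fun z : ℕ × ℕ × ℕ × ℕ × ℕ × ℕ => z.2.2.2 := Computable.snd.comp q3
    have q5 : Computable fun z : ℕ × ℕ × ℕ × ℕ × ℕ × ℕ => z.2.2.2.2 := Computable.snd.comp q4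
    exact REIn.of_re (re_comp hC (Computable.pair (computable_adB q1 (Computable.fst.comp q2)
      (Computable.fst.comp q3) (Computable.fst.comp q4)) q5))
  have hcert := certRE (B := B) computable_side hb hV hCC hT
  refine ⟨hcert, ?_⟩
  -- environment τ :: j :: l :: n :: a :: []
  have h1 : REIn B fun e : List ℕ => lg (vr 3 e, vr 0 e) = true :=
    REIn.of_comp (hlg.comp ((cv 3).pair (cv 0))) (fun _ => Iff.rfl)
  have h2 : REIn B fun e : List ℕ => vr 0 e + k (vr 3 e) = vr 2 e :=
    REIn.eq (Primrec.nat_add.to_comp.comp (cv 0) (hk.comp (cv 3))) (cv 2)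
  have h3 := hcert.comp (f := fun e : List ℕ => [vr 0 e, vr 2 e + 1, vr 3 e, vr 4 e])
    (Computable.list_cons.comp (cv 0) (Computable.list_cons.comp (Computable.succ.comp (cv 2))
      (Computable.list_cons.comp (cv 3) (Computable.list_cons.comp (cv 4)
        (Computable.const [])))))
  -- environment v :: j' :: τ :: j :: l :: n :: a :: []
  have h4 : REIn B fun e : List ℕ => vr 0 e ∈ UB (adB (vr 6 e) (vr 5 e) (vr 4 e) (vr 1 e)) ∧
      vr 0 e ≠ vr 2 e :=
    REIn.and (hUB.graph.comp (Computable.pair (computable_adB (cv 6) (cv 5) (cv 4) (cv 1))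
      (cv 0))) (REIn.ne (cv 0) (cv 2))
  have h5 := REIn.ballE (REIn.exE h4) (cv 1)
  have h6 := REIn.and h1 (REIn.and (REIn.or h2 h3) h5)
  have c1 : Computable fun z : ℕ × ℕ => z.1.unpair.1 :=
    Computable.fst.comp (Computable.unpair.comp Computable.fst)
  have c2 : Computable fun z : ℕ × ℕ => z.1.unpair.2 :=
    Computable.snd.comp (Computable.unpair.comp Computable.fst)
  have c21 : Computable fun z : ℕ × ℕ => z.1.unpair.2.unpair.1 :=
    Computable.fst.comp (Computable.unpair.comp c2)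
  have c22 : Computable fun z : ℕ × ℕ => z.1.unpair.2.unpair.2 :=
    Computable.snd.comp (Computable.unpair.comp c2)
  have h7 := h6.comp (f := fun z : ℕ × ℕ => [z.2, z.1.unpair.2.unpair.2.unpair.2,
    z.1.unpair.2.unpair.2.unpair.1, z.1.unpair.2.unpair.1, z.1.unpair.1])
    (Computable.list_cons.comp Computable.snd
      (Computable.list_cons.comp (Computable.snd.comp (Computable.unpair.comp c22))
      (Computable.list_cons.comp (Computable.fst.comp (Computable.unpair.comp c22))
      (Computable.list_cons.comp c21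
      (Computable.list_cons.comp c1 (Computable.const []))))))
  obtain ⟨f, hf, hf1, hf2⟩ := h7.select
  refine ⟨f, hf, fun a n l j => ⟨fun τ hτ => ?_, fun τ hE hex => ?_⟩⟩
  · have := hf1 _ _ hτ
    simp only [Nat.unpair_pair, vr] at this
    exact ⟨⟨this.1, this.2.1⟩, this.2.2⟩
  · refine hf2 _ τ ?_
    simp only [Nat.unpair_pair, vr]
    exact ⟨hE.1, hE.2, hex⟩

end Pool.Agent.LibHelper36.SJT
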