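import Mathlib
import Pool.Agent.Lib_helper36.SJT.Main

/-!
Final assembly.
-/

open Encodable Denumerable
open Pool.Agent.Lib45

namespace Pool.Agent.LibHelper36.SJT

/-- pair-indexed universal function -/
def Univ (X : Set ℕ) (U : ℕ →. ℕ) : Prop :=
  PCIn X U ∧ ∀ f, PCIn X f → ∃ e, ∀ n, f n = U (Nat.pair e n)

theorem sjt_join_univ {A₀ A₁ B : Set ℕ} {U₀ U₁ UB : ℕ →. ℕ} (hU₀ : Univ A₀ U₀)
    (hU₁ : Univ A₁ U₁) (hUB : Univ B UB) (hB : JTf UB) (h₀ : SJTf B U₀) (h₁ : SJTf B U₁)
    {f : ℕ →. ℕ} (hf : PCIn (join A₀ A₁) f) : SJTf B f := by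
  classical
  intro H hH
  obtain ⟨lg, hlg, Val, hVal, hValfun, hinc, htrue⟩ := exists_target hf
  obtain ⟨g, hg, W, hW, hWb, hWc⟩ := hB
  obtain ⟨C, hC, hCfun, hCW⟩ := exists_cand hW hWb
  -- lowest level
  have c42 : Computable fun l : ℕ => 4 ^ (l + 2) :=
    computable_pow.comp (Computable.const 4) (Computable.succ.comp Computable.succ)
  obtain ⟨k, hk, hk1, hk2⟩ := exists_find (p := fun n l => decide (H n < 4 ^ (l + 2)))
    (Primrec.nat_lt.decide.to_comp.comp (hH.comp.comp Computable.fst)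
      (c42.comp Computable.snd)) (fun n => ⟨H n, by
        simp only [decide_eq_true_eq]
        calc H n < 4 ^ H n := Nat.lt_pow_self (by norm_num)
          _ ≤ 4 ^ (H n + 2) := Nat.pow_le_pow_right (by norm_num) (by omega)⟩)
  simp only [decide_eq_true_eq] at hk1 hk2
  obtain ⟨ν0, hν0c, hν0⟩ := exists_inv hH
  let ν : ℕ → ℕ := fun l => ν0 (4 ^ (l + 2))
  have hνc : Computable ν := hν0c.comp c42
  have hν : ∀ n l, k n ≤ l → n < ν l := by
    intro n l hl
    refine hν0 _ _ ((hk1 n).le.trans ?_)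
    exact Nat.pow_le_pow_right (by norm_num) (by omega)
  -- bases
  let b : ℕ × ℕ × ℕ → ℕ := fun z => g (adB z.1 z.2.1 z.2.2 (NN z.2.2)) + 2
  have hb : Computable b := by
    refine Computable.succ.comp (Computable.succ.comp (hg.comp.comp ?_))
    exact computable_adB Computable.fst (Computable.fst.comp Computable.snd)
      (Computable.snd.comp Computable.snd) (computable_NN.comp (Computable.snd.comp Computable.snd))
  -- the slow order
  let bb : ℕ → ℕ := fun l => g (Nat.pair l (Nat.pair l (Nat.pair (ν l) (Nat.pair l (NN l))))) + 2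
  have hbb : Computable bb := by
    refine Computable.succ.comp (Computable.succ.comp (hg.comp.comp ?_))
    exact Primrec₂.natPair.to_comp.comp Computable.id (Primrec₂.natPair.to_comp.comp Computable.id
      (computable_tri hνc Computable.id computable_NN))
  let F : ℕ → ℕ := fun l =>
    Nat.pair l (Nat.pair l (Nat.pair (ν l) (Nat.pair l (bb l ^ NN l)))) + 1
  have hF : Computable F := by
    refine Computable.succ.comp ?_
    exact Primrec₂.natPair.to_comp.comp Computable.id (Primrec₂.natPair.to_comp.comp Computable.id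
      (computable_tri hνc Computable.id (computable_pow.comp hbb computable_NN)))
  have hFlt : ∀ l, l < F l := fun l => Nat.lt_succ_of_le (Nat.left_le_pair _ _)
  obtain ⟨h', hh', hslow⟩ := exists_slow hF hFlt
  obtain ⟨T₀, hT₀, hT₀b, hT₀c⟩ := h₀ h' hh'
  obtain ⟨T₁, hT₁, hT₁b, hT₁c⟩ := h₁ h' hh'
  let T : ℕ × ℕ × ℕ × ℕ × ℕ × ℕ → Prop := fun z =>
    (z.1 = 0 ∧ z.2.2.2.2.2 ∈ T₀ (ad z.1 z.2.1 z.2.2.1 z.2.2.2.1 z.2.2.2.2.1)) ∨
    (z.1 ≠ 0 ∧ z.2.2.2.2.2 ∈ T₁ (ad z.1 z.2.1 z.2.2.1 z.2.2.2.1 z.2.2.2.2.1))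
  have hT : REIn B T := by
    have q1 : Computable fun z : ℕ × ℕ × ℕ × ℕ × ℕ × ℕ => z.1 := Computable.fst
    have q2 : Computable fun z : ℕ × ℕ × ℕ × ℕ × ℕ × ℕ => z.2 := Computable.snd
    have q3 : Computable fun z : ℕ × ℕ × ℕ × ℕ × ℕ × ℕ => z.2.2 := Computable.snd.comp q2
    have q4 : Computable fun z : ℕ × ℕ × ℕ × ℕ × ℕ × ℕ => z.2.2.2 := Computable.snd.comp q3
    have q5 : Computable fun z : ℕ × ℕ × ℕ × ℕ × ℕ × ℕ => z.2.2.2.2 := Computable.snd.comp q4
    have qa : Computable fun z : ℕ × ℕ × ℕ × ℕ × ℕ × ℕ =>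
        (ad z.1 z.2.1 z.2.2.1 z.2.2.2.1 z.2.2.2.2.1, z.2.2.2.2.2) :=
      Computable.pair (computable_ad q1 (Computable.fst.comp q2) (Computable.fst.comp q3)
        (Computable.fst.comp q4) (Computable.fst.comp q5)) (Computable.snd.comp q5)
    exact REIn.or (REIn.and (REIn.eq q1 (Computable.const 0)) ((ceTrace_iff.1 hT₀).2.comp qa))
      (REIn.and (REIn.ne q1 (Computable.const 0)) ((ceTrace_iff.1 hT₁).2.comp qa))
  -- functionals and the index
  obtain ⟨hcertRE, fB, hfB, hfBs⟩ := exists_msg hUB.1 hb hC hT hlg hk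
  obtain ⟨f0, hf0, hf0s⟩ := exists_box (A := A₀) 0 hb hC
  obtain ⟨f1, hf1, hf1s⟩ := exists_box (A := A₁) 1 hb hC
  obtain ⟨eB, heB⟩ := hUB.2 _ hfB
  obtain ⟨e0, he0⟩ := hU₀.2 _ hf0
  obtain ⟨e1, he1⟩ := hU₁.2 _ hf1
  let a : ℕ := Nat.pair e0 (Nat.pair e1 eB)
  have hadB : ∀ n l j, UB (adB a n l j) = fB (Nat.pair a (Nat.pair n (Nat.pair l j))) := by
    intro n l j
    rw [heB]
    simp [adB, a]
  have had0 : ∀ n l c, U₀ (ad 0 a n l c) = f0 (Nat.pair a (Nat.pair n (Nat.pair l c))) := by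
    intro n l c
    rw [he0]
    simp [ad, a]
  have had1 : ∀ n l c, U₁ (ad 1 a n l c) = f1 (Nat.pair a (Nat.pair n (Nat.pair l c))) := by
    intro n l c
    rw [he1]
    simp [ad, a]
  -- abbreviations for the abstract part
  let CERT : ℕ → ℕ → ℕ → Prop := fun n l τ => Cert side (fun l => b (a, n, l))
    (fun l j τ => τ ∈ UB (adB a n l j)) (fun l j c τ => C (adB a n l j, c, τ))
    (fun i l c => {j' | T (i, a, n, l, c, j')}) l τ
  have hVfun : ∀ n l j τ τ', τ ∈ UB (adB a n l j) → τ' ∈ UB (adB a n l j) → τ = τ' :=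
    fun n l j τ τ' h h' => Part.mem_unique h h'
  have hTb : ∀ n i l c, i < 2 → k n ≤ l → a + 1 ≤ k n → c < b (a, n, l) ^ NN l →
      ({j' | T (i, a, n, l, c, j')} : Set ℕ).Finite ∧
      ({j' | T (i, a, n, l, c, j')} : Set ℕ).ncard ≤ l := by
    intro n i l c hi hl ha hc
    have hal : a ≤ l := by omega
    have hnν : n < ν l := hν n l hl
    have hbbb : b (a, n, l) ≤ bb l := by
      refine Nat.add_le_add_right (hg.mono ?_) 2
      exact adB_le hal hnν.le le_rfl le_rfl
    have hadF : ad i a n l c < F l := by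
      refine Nat.lt_succ_of_le (ad_le hal hnν.le le_rfl ?_)
      exact hc.le.trans (Nat.pow_le_pow_left hbbb _)
    have hle : h' (ad i a n l c) ≤ l := hslow l _ (by omega) hadF
    rcases Nat.eq_zero_or_pos i with rfl | hi0
    · have e : ({j' | T (0, a, n, l, c, j')} : Set ℕ) = T₀ (ad 0 a n l c) := by
        ext j'; simp [T]
      rw [e]
      exact ⟨hT₀.1 _, (hT₀b _).trans hle⟩
    · obtain rfl : i = 1 := by omega
      have e : ({j' | T (1, a, n, l, c, j')} : Set ℕ) = T₁ (ad 1 a n l c) := by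
        ext j'; simp [T]
      rw [e]
      exact ⟨hT₁.1 _, (hT₁b _).trans hle⟩
  -- few certified candidates
  have hfew : ∀ n, a + 1 ≤ k n → {τ | CERT n (k n) τ}.Finite ∧
      {τ | CERT n (k n) τ}.ncard < 4 ^ (k n + 1) := by
    intro n hn
    have hcc := cert_card (α := side) (legit := fun τ => lg (n, τ) = true)
      (b := fun l => b (a, n, l)) (V := fun l j τ => τ ∈ UB (adB a n l j))
      (C := fun l j c τ => C (adB a n l j, c, τ))
      (T := fun i l c => {j' | T (i, a, n, l, c, j')}) (L0 := k n) (hVfun n)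
      (fun l j τ hτ => by
        rw [hadB] at hτ
        exact ((hfBs a n l j).1 τ hτ).1.1)
      (fun l j c τ τ' h h' => hCfun _ _ _ _ h h')
      (fun i l c hi hl hc => hTb n i l c hi hl hn hc)
      (fun τ τ' h h' hne => hinc n τ τ' h h' hne) (k n) le_rfl
    have hfin : {τ | CERT n (k n) τ}.Finite := by
      by_contra hinf
      obtain ⟨S, hS, hScard⟩ := Set.Infinite.exists_subset_card_eq (s := {τ | CERT n (k n) τ})
        hinf (4 ^ (k n + 1))
      have := hcc S (fun τ hτ => hS hτ)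
      omega
    refine ⟨hfin, ?_⟩
    have := hcc hfin.toFinset (fun τ hτ => by simpa using hτ)
    rwa [← Set.ncard_coe_finset, Set.Finite.coe_toFinset] at this
  -- the true candidate is certified
  have htruec : ∀ n m, a + 1 ≤ k n → m ∈ f n → ∃ τ, CERT n (k n) τ ∧ Val (n, τ, m) := by
    intro n m hn hm
    obtain ⟨τ, hτ, hτ0, hτ1, hτv⟩ := htrue n m hm
    refine ⟨τ, ?_, hτv⟩
    refine cert_true (α := side) (legit := fun τ => lg (n, τ) = true) (K := k n)
      (b := fun l => b (a, n, l)) (V := fun l j τ => τ ∈ UB (adB a n l j))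
      (C := fun l j c τ => C (adB a n l j, c, τ))
      (T := fun i l c => {j' | T (i, a, n, l, c, j')}) (L0 := k n) (hVfun n)
      (fun l j τ hτ => by
        rw [hadB] at hτ
        exact (hfBs a n l j).1 τ hτ)
      (fun l j τ hE hex => by
        have := (hfBs a n l j).2 τ hE hex
        rw [← hadB] at this
        exact Part.dom_iff_mem.1 this)
      (fun l j c τ τ' h h' => hCfun _ _ _ _ h h')
      (fun l j τ hj hτ => ?_)
      (fun i l c hi hl hc => hTb n i l c hi hl hn hc)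
      (fun τ τ' h h' hne => hinc n τ τ' h h' hne) le_rfl τ hτ ?_
    · obtain ⟨c0, hc0, hcC⟩ := hCW _ _ (hWc _ _ hτ)
      refine ⟨c0, ?_, hcC⟩
      have : g (adB a n l j) ≤ g (adB a n l (NN l)) := by
        refine hg.mono ?_
        unfold adB
        exact pair_mono le_rfl (pair_mono le_rfl (pair_mono le_rfl (pair_mono le_rfl hj.le)))
      show c0 + 1 < g (adB a n l (NN l)) + 2
      omega
    · intro i l c j c0 hi hl hc hj hd hCj
      rcases Nat.eq_zero_or_pos i with rfl | hi0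
      · obtain ⟨s1, s2⟩ := hf0s a n l c
        have hdom := s2 j hj ⟨c0, τ, hd, hCj, hτ0⟩
        obtain ⟨j', hj'⟩ := Part.dom_iff_mem.1 hdom
        obtain ⟨hj'N, c0', τ', hd', hC', hseg'⟩ := s1 j' hj'
        refine ⟨j', hj'N, c0', τ', hd', hC', ?_, seg_cmp hseg' hτ0⟩
        rw [← had0] at hj'
        exact Or.inl ⟨rfl, hT₀c _ _ hj'⟩
      · obtain rfl : i = 1 := by omega
        obtain ⟨s1, s2⟩ := hf1s a n l c
        have hdom := s2 j hj ⟨c0, τ, hd, hCj, hτ1⟩
        obtain ⟨j', hj'⟩ := Part.dom_iff_mem.1 hdom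
        obtain ⟨hj'N, c0', τ', hd', hC', hseg'⟩ := s1 j' hj'
        refine ⟨j', hj'N, c0', τ', hd', hC', ?_, seg_cmp hseg' hτ1⟩
        rw [← had1] at hj'
        exact Or.inr ⟨Nat.one_ne_zero, hT₁c _ _ hj'⟩
  -- the small part
  let S : Set (ℕ × ℕ) := {z | k z.1 ≤ a ∧ z.2 ∈ f z.1}
  have hS : S.Finite := by
    refine Set.Finite.of_finite_image (f := Prod.fst) ((Set.finite_Iio (ν a)).subset ?_) ?_
    · rintro _ ⟨z, hz, rfl⟩
      exact hν _ _ hz.1
    · rintro ⟨n, m⟩ hz ⟨n', m'⟩ hz' heq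
      obtain rfl : n = n' := heq
      have : m = m' := Part.mem_unique hz.2 hz'.2
      rw [this]
  -- the trace
  let Tr : ℕ → Set ℕ := fun n =>
    {m | (n, m) ∈ S ∨ (a + 1 ≤ k n ∧ ∃ τ, CERT n (k n) τ ∧ Val (n, τ, m))}
  have hsmall : ∀ n, ¬ a + 1 ≤ k n → Tr n ⊆ {m | m ∈ f n} := by
    intro n hn m hm
    rcases hm with h | h
    · exact h.2
    · exact absurd h.1 hn
  have hfsub : ∀ n, ({m | m ∈ f n} : Set ℕ).Subsingleton := fun n m hm m' hm' =>
    Part.mem_unique hm hm'
  have hlarge : ∀ n, a + 1 ≤ k n → Tr n = {m | ∃ τ, CERT n (k n) τ ∧ Val (n, τ, m)} := by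
    intro n hn
    ext m
    constructor
    · rintro (h | h)
      · exact absurd (show k n ≤ a from h.1) (by omega)
      · exact h.2
    · intro h
      exact Or.inr ⟨hn, h⟩
  have hlargefin : ∀ n, a + 1 ≤ k n → (Tr n).Finite ∧ (Tr n).ncard ≤ 4 ^ (k n + 1) := by
    intro n hn
    obtain ⟨h1, h2⟩ := hfew n hn
    rw [hlarge n hn]
    choose! t ht using fun m (hm : ∃ τ, CERT n (k n) τ ∧ Val (n, τ, m)) => hm
    have hinj : Set.InjOn t {m | ∃ τ, CERT n (k n) τ ∧ Val (n, τ, m)} := by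
      intro m hm m' hm' heq
      have := (ht m hm).2
      rw [heq] at this
      exact hValfun _ _ _ _ this (ht m' hm').2
    have hmaps : Set.MapsTo t {m | ∃ τ, CERT n (k n) τ ∧ Val (n, τ, m)}
        {τ | CERT n (k n) τ} := fun m hm => (ht m hm).1
    refine ⟨Set.Finite.of_injOn hmaps hinj h1, ?_⟩
    exact (Set.ncard_le_ncard_of_injOn t hmaps hinj h1).trans h2.le
  refine ⟨Tr, ?_, ?_, ?_⟩
  · rw [ceTrace_iff]
    constructor
    · intro n
      by_cases hn : a + 1 ≤ k n
      · exact (hlargefin n hn).1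
      · exact (hfsub n).finite.subset (hsmall n hn)
    · have r1 : REIn B fun z : ℕ × ℕ => z ∈ S := REIn.of_re (re_of_finite hS)
      have r2 : REIn B fun z : ℕ × ℕ => a < k z.1 :=
        REIn.lt (Computable.const a) (hk.comp Computable.fst)
      -- environment τ :: m :: n :: []
      have r3 := hcertRE.comp (f := fun e : List ℕ => [vr 0 e, k (vr 2 e), vr 2 e, a])
        (Computable.list_cons.comp (cv 0) (Computable.list_cons.comp (hk.comp (cv 2))
          (Computable.list_cons.comp (cv 2) (Computable.const [a]))))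
      have r4 : REIn B fun e : List ℕ => Val (vr 2 e, vr 0 e, vr 1 e) :=
        REIn.of_re (re_comp hVal (ct3 (cv 2) (cv 0) (cv 1)))
      have r5 := REIn.exE (REIn.and r3 r4)
      have r6 := r5.comp (f := fun z : ℕ × ℕ => [z.2, z.1])
        (Computable.list_cons.comp Computable.snd (Computable.list_cons.comp Computable.fst
          (Computable.const [])))
      exact REIn.or r1 (REIn.and r2 r6)
  · intro n
    by_cases hn : a + 1 ≤ k n
    · refine (hlargefin n hn).2.trans ?_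
      by_contra hcon
      push Not at hcon
      have := hk2 n (k n - 1) (by
        have e : k n - 1 + 2 = k n + 1 := by omega
        rw [e]; exact hcon)
      omega
    · refine le_trans ?_ (hH.pos.trans (hH.mono (Nat.zero_le n)))
      refine (Set.ncard_le_ncard (hsmall n hn) (hfsub n).finite).trans ?_
      exact (Set.ncard_le_one (hfsub n).finite).2 (fun x hx y hy => hfsub n hx hy)
  · intro n m hm
    by_cases hn : a + 1 ≤ k n
    · exact Or.inr ⟨hn, htruec n m hn hm⟩
    · exact Or.inl ⟨by show k n ≤ a; omega, hm⟩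

/-- universality for arbitrary oracles: the pair-indexed universal functions exist -/
theorem exists_isUniversal : ∃ J, IsUniversal J := by
  choose U hU hU' using exists_univ
  refine ⟨U, hU, fun X f hf => ?_⟩
  obtain ⟨e, he⟩ := hU' X f hf
  exact ⟨fun n => Nat.pair e n,
    Primrec₂.natPair.to_comp.comp (Computable.const e) Computable.id, he⟩

/-- **Main theorem.** Below a jump-traceable set, `≤_SJT` is closed under joins. -/
theorem sjt_join {J : Set ℕ → ℕ →. ℕ} (hJ : IsUniversal J) {B : Set ℕ}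
    (hB : JumpTraceable J B) {A₀ A₁ : Set ℕ} (h₀ : SJTle J A₀ B) (h₁ : SJTle J A₁ B) :
    SJTle J (join A₀ A₁) B := by
  obtain ⟨U₀, hU₀⟩ := exists_univ A₀
  obtain ⟨U₁, hU₁⟩ := exists_univ A₁
  obtain ⟨UB, hUB⟩ := exists_univ B
  obtain ⟨r₀, hr₀, hr₀'⟩ := hJ.univ A₀ U₀ hU₀.1
  obtain ⟨r₁, hr₁, hr₁'⟩ := hJ.univ A₁ U₁ hU₁.1
  obtain ⟨rB, hrB, hrB'⟩ := hJ.univ B UB hUB.1
  have k₀ : SJTf B U₀ := by
    have := SJTf.comp (show SJTf B (J A₀) from h₀) hr₀
    have e : (fun n => J A₀ (r₀ n)) = U₀ := funext fun n => (hr₀' n).symm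
    rwa [e] at this
  have k₁ : SJTf B U₁ := by
    have := SJTf.comp (show SJTf B (J A₁) from h₁) hr₁
    have e : (fun n => J A₁ (r₁ n)) = U₁ := funext fun n => (hr₁' n).symm
    rwa [e] at this
  have kB : JTf UB := by
    have := JTf.comp (show JTf (J B) from hB) hrB
    have e : (fun n => J B (rB n)) = UB := funext fun n => (hrB' n).symm
    rwa [e] at this
  exact sjt_join_univ hU₀ hU₁ hUB kB k₀ k₁ (hJ.pc _)

end Pool.Agent.LibHelper36.SJT
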